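import Pool.Agent.Helper57_TOR.Nu1
import Pool.Agent.Helper41_TOR.Tz
import Pool.Agent.Helper56_TOR.Heis

/-!
# Near unipotence, part 2: the far functional
-/

set_option autoImplicit false

namespace Pool.Agent.TOR.H57

open CategoryTheory CategoryTheory.Limits Rep Representation

section functor

variable {N N' N'' : Type} [Group N] [Group N'] [Group N'']

theorem hn_comp (f : N →* N') (g : N' →* N'') (i : ℕ)
    (x : groupHomology (Rep.trivial ℚ N ℚ) i) : hn (g.comp f) i x = hn g i (hn f i x) := by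
  unfold hn
  have h := groupHomology.map_comp (A := Rep.trivial ℚ N ℚ) (B := Rep.trivial ℚ N' ℚ)
    (C := Rep.trivial ℚ N'' ℚ) f g (𝟙 (Rep.trivial ℚ N ℚ)) (𝟙 (Rep.trivial ℚ N' ℚ)) i
  have h2 : groupHomology.map (A := Rep.trivial ℚ N ℚ) (B := Rep.trivial ℚ N'' ℚ) (g.comp f)
    (𝟙 (Rep.trivial ℚ N ℚ)) i = groupHomology.map (A := Rep.trivial ℚ N ℚ)
      (B := Rep.trivial ℚ N'' ℚ) (g.comp f) ((𝟙 (Rep.trivial ℚ N ℚ)) ≫
        (resFunctor f).map (𝟙 (Rep.trivial ℚ N' ℚ))) i :=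
    groupHomology.map_congr rfl (by ext; rfl) i
  exact congrArg (fun φ : groupHomology (Rep.trivial ℚ N ℚ) i ⟶
    groupHomology (Rep.trivial ℚ N'' ℚ) i => φ.hom x) (h2.trans h)

theorem hn_congr (f g : N →* N') (h : ∀ x, f x = g x) (i : ℕ) : hn f i = hn g i := by
  have : f = g := MonoidHom.ext h
  rw [this]

end functor

section conj

variable {G G' : Type} [Group G] [Group G'] (N : Subgroup G) [N.Normal] (N' : Subgroup G')
  [N'.Normal]

theorem cR_hn (g : G) (i : ℕ) : cR N i g = hn (cN N g) i := rfl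

/-- equivariance -/
theorem cR_nat (f : G →* G') (ν : N →* N') (hν : ∀ x : N, ((ν x : N') : G') = f x) (g : G) (i : ℕ)
    (x : groupHomology (Rep.trivial ℚ N ℚ) i) :
    cR N' i (f g) (hn ν i x) = hn ν i (cR N i g x) := by
  rw [cR_hn, cR_hn, ← hn_comp, ← hn_comp]
  have h : (cN N' (f g)).comp ν = ν.comp (cN N g) := by
    ext x
    rw [MonoidHom.comp_apply, MonoidHom.comp_apply, cN_coe, hν, hν, cN_coe, map_mul, map_mul,
      map_inv]
  rw [h]

omit [N.Normal] in
/-- elements which centralise the image of ν act trivially -/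
theorem cR_fix (ν : N →* N') (g : G') (h : ∀ x : N, g * ((ν x : N') : G') = ν x * g) (i : ℕ)
    (x : groupHomology (Rep.trivial ℚ N ℚ) i) :
    cR N' i g (hn ν i x) = hn ν i x := by
  rw [cR_hn, ← hn_comp]
  refine congrFun (congrArg DFunLike.coe (hn_congr _ _ (fun y => ?_) i)) x
  refine Subtype.ext ?_
  rw [MonoidHom.comp_apply, cN_coe, h, mul_inv_cancel_right]

end conj

section trivial

variable {G Γ : Type} [Group G] [Group Γ]

/-- the identity of the trivial coefficients -/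
noncomputable def trI (s0 : G →* Γ) : Rep.trivial ℚ G ℚ ⟶ res s0 (Rep.trivial ℚ Γ ℚ) :=
  ofHom ⟨LinearMap.id, fun _ => rfl⟩

theorem hl_trI (s0 s : G →* Γ) (q : ℕ) (x : groupHomology (Rep.trivial ℚ G ℚ) q) :
    hl s0 s (Rep.trivial ℚ Γ ℚ) q ((groupHomology.map (A := Rep.trivial ℚ G ℚ)
      (B := res s0 (Rep.trivial ℚ Γ ℚ)) (MonoidHom.id _) (trI s0) q).hom x) = hn s q x := by
  rw [hl_eq s0 s (Rep.trivial ℚ Γ ℚ) q (fun _ => rfl)]
  have h1 := groupHomology.map_comp (A := Rep.trivial ℚ G ℚ)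
    (B := res s0 (Rep.trivial ℚ Γ ℚ)) (C := Rep.trivial ℚ Γ ℚ) (MonoidHom.id _) s (trI s0)
    (idr s0 s (Rep.trivial ℚ Γ ℚ) (fun _ => rfl)) q
  have h2 : groupHomology.map (A := Rep.trivial ℚ G ℚ) (B := Rep.trivial ℚ Γ ℚ) s
      (𝟙 (Rep.trivial ℚ G ℚ)) q =
      groupHomology.map (A := Rep.trivial ℚ G ℚ) (B := Rep.trivial ℚ Γ ℚ)
        (s.comp (MonoidHom.id _)) (trI s0 ≫ (resFunctor (MonoidHom.id _)).map
          (idr s0 s (Rep.trivial ℚ Γ ℚ) (fun _ => rfl))) q :=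
    groupHomology.map_congr rfl rfl q
  exact (congrArg (fun φ : groupHomology (Rep.trivial ℚ G ℚ) q ⟶
    groupHomology (Rep.trivial ℚ Γ ℚ) q => φ.hom x) (h2.trans h1)).symm

end trivial

section ff

variable {X Y : Type} [DecidableEq Y]

/-- w at the letters of J -/
def wJ (w : FreeGroup X) (J : Finset Y) : Y → FreeGroup X := fun y => if y ∈ J then w else 1

/-- stabilisation conjugated by the right multiplications by w at J -/
noncomputable def sJ (w : FreeGroup X) (J : Finset Y) :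
    IA (FreeGroup X) →* IA (FreeGroup (X ⊕ Y)) :=
  (cN (IA (FreeGroup (X ⊕ Y))) (rm (wJ w J))).comp stI

theorem sJ_coe (w : FreeGroup X) (J : Finset Y) (g : IA (FreeGroup X)) :
    ((sJ w J g : IA (FreeGroup (X ⊕ Y))) : MulAut (FreeGroup (X ⊕ Y))) =
      rm (fun y => wJ w J y * (g : MulAut (FreeGroup X)) (wJ w J y)⁻¹) * st (g : MulAut _) := by
  have h1 : ((sJ w J g : IA (FreeGroup (X ⊕ Y))) : MulAut (FreeGroup (X ⊕ Y))) =
      rm (wJ w J) * st (g : MulAut _) * (rm (wJ w J))⁻¹ := cN_coe _ _ _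
  rw [h1, ← map_inv, mul_assoc, st_rm, ← mul_assoc, ← map_mul]
  rfl

theorem sJ_empty (w : FreeGroup X) (g : IA (FreeGroup X)) :
    ((sJ (Y := Y) w ∅ g : IA (FreeGroup (X ⊕ Y))) : MulAut (FreeGroup (X ⊕ Y))) =
      st (g : MulAut _) := by
  rw [sJ_coe]
  have h : (fun y : Y => wJ w ∅ y * (g : MulAut (FreeGroup X)) (wJ w ∅ y)⁻¹) = 1 := by
    funext y
    simp [wJ]
  rw [h, map_one, one_mul]

/-- the commuting subgroups -/
def Asub (i : Y) : Subgroup (IA (FreeGroup (X ⊕ Y))) :=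
  ((rm.comp (MonoidHom.mulSingle (fun _ : Y => FreeGroup X) i)).range).subgroupOf
    (IA (FreeGroup (X ⊕ Y)))

theorem mem_Asub (i : Y) (φ : IA (FreeGroup (X ⊕ Y))) :
    φ ∈ Asub (X := X) i ↔ ∃ a : FreeGroup X, rm (Pi.mulSingle i a) = (φ : MulAut _) := Iff.rfl

variable [Fintype Y]

/-- the cross effect relation for the far functional -/
theorem ff_rel (w : FreeGroup X) (q : ℕ) (hq : q < Fintype.card Y)
    (x : groupHomology (Rep.trivial ℚ (IA (FreeGroup X)) ℚ) q) :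
    ∑ J : Finset Y, ((-1 : ℤ) ^ J.card) •
      (cR (IA (FreeGroup (X ⊕ Y))) q (rm (wJ w J)) (hn stI q x)) = 0 := by
  have h := cross_effect (k := ℚ) (sJ (Y := Y) w) (Asub (X := X))
    (by
      rintro i j hij a ha b hb
      obtain ⟨a', ha'⟩ := (mem_Asub i a).1 ha
      obtain ⟨b', hb'⟩ := (mem_Asub j b).1 hb
      refine Subtype.ext ?_
      change (a : MulAut (FreeGroup (X ⊕ Y))) * b = b * a
      rw [← ha', ← hb', ← map_mul, ← map_mul]
      congr 1
      have hc : Commute (Pi.mulSingle i a' : Y → FreeGroup X) (Pi.mulSingle j b') := by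
        funext y
        rw [Pi.mul_apply, Pi.mul_apply]
        by_cases hy : y = i
        · subst hy
          rw [Pi.mulSingle_eq_of_ne hij, mul_one, one_mul]
        · rw [Pi.mulSingle_eq_of_ne hy, mul_one, one_mul]
      exact hc)
    (by
      intro i a ha g
      obtain ⟨a', ha'⟩ := (mem_Asub i a).1 ha
      rw [mem_Asub]
      refine ⟨(g : MulAut (FreeGroup X)) a', ?_⟩
      change _ = ((sJ w ∅ g : IA (FreeGroup (X ⊕ Y))) : MulAut (FreeGroup (X ⊕ Y))) * a *
        ((sJ w ∅ g : IA (FreeGroup (X ⊕ Y))) : MulAut (FreeGroup (X ⊕ Y)))⁻¹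
      rw [sJ_empty, ← ha', st_rm, mul_inv_cancel_right]
      congr 1
      funext y
      by_cases hy : y = i
      · subst hy; rw [Pi.mulSingle_eq_same, Pi.mulSingle_eq_same]
      · rw [Pi.mulSingle_eq_of_ne hy, Pi.mulSingle_eq_of_ne hy, map_one])
    (by
      intro i g
      have hmem : rm (Pi.mulSingle i (w * (g : MulAut (FreeGroup X)) w⁻¹) : Y → FreeGroup X) ∈
          IA (FreeGroup (X ⊕ Y)) := by
        refine rm_mem _ fun y => ?_
        by_cases hy : y = i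
        · subst hy
          rw [Pi.mulSingle_eq_same, map_mul, g.2 w⁻¹, ← map_mul, mul_inv_cancel]
        · rw [Pi.mulSingle_eq_of_ne hy]
      refine ⟨⟨_, hmem⟩, (mem_Asub i _).2 ⟨_, rfl⟩, fun J hJ => Subtype.ext ?_⟩
      change ((sJ w (insert i J) g : IA (FreeGroup (X ⊕ Y))) : MulAut (FreeGroup (X ⊕ Y))) =
        rm (Pi.mulSingle i (w * (g : MulAut (FreeGroup X)) w⁻¹) : Y → FreeGroup X) *
          ((sJ w J g : IA (FreeGroup (X ⊕ Y))) : MulAut (FreeGroup (X ⊕ Y)))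
      rw [sJ_coe, sJ_coe, ← mul_assoc, ← map_mul]
      congr 2
      funext y
      rw [Pi.mul_apply]
      by_cases hy : y = i
      · subst hy
        simp [wJ, hJ]
      · rw [Pi.mulSingle_eq_of_ne hy, one_mul]
        simp only [wJ, Finset.mem_insert, hy, false_or])
    (Rep.trivial ℚ (IA (FreeGroup (X ⊕ Y))) ℚ) (fun _ _ _ => rfl) q hq
    ((groupHomology.map (A := Rep.trivial ℚ (IA (FreeGroup X)) ℚ)
      (B := res (sJ (Y := Y) w ∅) (Rep.trivial ℚ (IA (FreeGroup (X ⊕ Y))) ℚ)) (MonoidHom.id _)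
      (trI (sJ (Y := Y) w ∅)) q).hom x)
  rw [← h]
  refine Finset.sum_congr rfl fun J _ => ?_
  congr 1
  rw [hl_trI, cR_hn, ← hn_comp]
  rfl

end ff

end Pool.Agent.TOR.H57
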