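import Pool.Agent.Helper57_TOR.Cr5
import Pool.Agent.Helper79_TOR.Stmts

/-!
# Module CRE of the T2-STAB block
-/

set_option autoImplicit false

namespace Pool.Agent.TOR.H57

open CategoryTheory CategoryTheory.Limits Rep Representation

theorem cre : Pool.Agent.TST.CRE := by
  intro R _ G Γ _ _ M δ _ _ A hcomm s hs hM c hc hcs N f hff t ht
  have h4 : ∀ i, ∀ a ∈ A i, M.ρ a = 1 := fun i a ha => LinearMap.ext fun m => hM i a ha m
  have hagr : ∀ (J : Finset δ) g, M.ρ (s ∅ g) = M.ρ (s J g) := by
    intro J
    induction J using Finset.induction_on with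
    | empty => intro g; rfl
    | insert i J hi ih =>
      intro g
      rw [hcs J i hi, map_mul, h4 i _ (hc i g), one_mul, ih g]
  let P : groupHomology N t ⟶ groupHomology (res (s ∅) M) t :=
    groupHomology.map (A := N) (B := res (s ∅) M) (MonoidHom.id G) (f ∅) t
  have hP : ∀ J, groupHomology.map (s J) (f J) t = P ≫ hf (s ∅) (s J) M t (hagr J) := by
    intro J
    have h1 := groupHomology.map_comp (A := N) (B := res (s ∅) M) (C := M) (MonoidHom.id G) (s J)
      (f ∅) (idr (s ∅) (s J) M (hagr J)) t
    refine Eq.trans ?_ h1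
    refine groupHomology.map_congr rfl ?_ t
    refine LinearMap.ext fun x => ?_
    exact hff J x
  ext y
  have h := cross_effect s A hcomm (fun i a ha g => hs i g a ha)
    (fun i g => ⟨c i g, hc i g, fun J hJ => hcs J i hJ g⟩) M h4 t ht (P.hom y)
  have h2 : ∀ (S : Finset (Finset δ)), (∑ J ∈ S, ((-1 : ℤ) ^ J.card) •
      groupHomology.map (s J) (f J) t).hom y =
      ∑ J ∈ S, ((-1 : ℤ) ^ J.card) • hl (s ∅) (s J) M t (P.hom y) := by
    intro S
    induction S using Finset.induction_on with
    | empty => rw [Finset.sum_empty, Finset.sum_empty]; rfl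
    | insert J S hJ ih =>
      rw [Finset.sum_insert hJ, Finset.sum_insert hJ, ← ih, hP J, hl_eq _ _ _ _ (hagr J)]
      rfl
  rw [h2, h]
  rfl

end Pool.Agent.TOR.H57
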