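import Pool.Agent.Helper57_TOR.Cr5
import Pool.Agent.Helper41_TOR.Tm

/-!
# Near unipotence, part 1: automorphisms of free groups
-/

set_option autoImplicit false

namespace Pool.Agent.TOR.H57

open CategoryTheory CategoryTheory.Limits Rep Representation

/-- automorphisms acting trivially on the abelianization -/
def IA (F : Type) [Group F] : Subgroup (MulAut F) where
  carrier := {φ | ∀ x : F, Abelianization.of (φ x) = Abelianization.of x}
  one_mem' := fun x => rfl
  mul_mem' := by
    intro a b ha hb x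
    rw [MulAut.mul_apply, ha, hb]
  inv_mem' := by
    intro a ha x
    have h := ha (a⁻¹ x)
    rw [MulAut.apply_inv_self] at h
    exact h.symm

theorem mem_IA {F : Type} [Group F] (φ : MulAut F) :
    φ ∈ IA F ↔ ∀ x : F, Abelianization.of (φ x) = Abelianization.of x := Iff.rfl

/-- an endomorphism respects equality in the abelianization -/
theorem ab_congr {F H : Type} [Group F] [Group H] (f : F →* H) {x y : F}
    (h : Abelianization.of x = Abelianization.of y) :
    Abelianization.of (f x) = Abelianization.of (f y) := by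
  have h1 := congrArg (Abelianization.map f) h
  rwa [Abelianization.map_of, Abelianization.map_of] at h1

instance IA_normal (F : Type) [Group F] : (IA F).Normal where
  conj_mem := by
    intro n hn g x
    rw [MulAut.mul_apply, MulAut.mul_apply]
    have h := ab_congr (g : F ≃* F).toMonoidHom (hn (g⁻¹ x))
    have h2 : g (g⁻¹ x) = x := MulAut.apply_inv_self F g x
    exact h.trans (congrArg Abelianization.of h2)

/-- two automorphisms which agree on the abelianization act in the same way on homology -/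
theorem cR_congr {F : Type} [Group F] (g h : MulAut F)
    (hgh : ∀ x, Abelianization.of (g x) = Abelianization.of (h x)) (q : ℕ) :
    cR (IA F) q g = cR (IA F) q h := by
  have h1 : h⁻¹ * g ∈ IA F := by
    intro x
    rw [MulAut.mul_apply]
    have h2 := ab_congr (h⁻¹ : F ≃* F).toMonoidHom (hgh x)
    exact h2.trans (congrArg Abelianization.of (MulAut.inv_apply_self F h x))
  have h3 := cR_mem (IA F) q (h⁻¹ * g) h1
  have h4 : g = h * (h⁻¹ * g) := by rw [mul_inv_cancel_left]
  rw [h4, map_mul, h3, mul_one]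

/-- it is enough to check on letters -/
theorem ab_letters {X : Type} {H : Type} [Group H] (g h : FreeGroup X →* H)
    (hgh : ∀ x, Abelianization.of (g (FreeGroup.of x)) = Abelianization.of (h (FreeGroup.of x)))
    (x : FreeGroup X) : Abelianization.of (g x) = Abelianization.of (h x) := by
  have h1 : (Abelianization.of).comp g = (Abelianization.of).comp h := by
    refine FreeGroup.ext_hom _ _ fun x => ?_
    exact hgh x
  exact DFunLike.congr_fun h1 x

theorem mem_IA_letters {X : Type} (φ : MulAut (FreeGroup X))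
    (h : ∀ x, Abelianization.of (φ (FreeGroup.of x)) = Abelianization.of (FreeGroup.of x)) :
    φ ∈ IA (FreeGroup X) := by
  intro x
  exact ab_letters (φ : FreeGroup X ≃* FreeGroup X).toMonoidHom (MonoidHom.id _) h x

/-- construction of automorphisms of a free group -/
def mkAut {X : Type} (f g : FreeGroup X →* FreeGroup X)
    (hfg : ∀ x, f (g (FreeGroup.of x)) = FreeGroup.of x)
    (hgf : ∀ x, g (f (FreeGroup.of x)) = FreeGroup.of x) : MulAut (FreeGroup X) :=
  MonoidHom.toMulEquiv f g
    (by refine FreeGroup.ext_hom _ _ fun x => ?_; exact hgf x)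
    (by refine FreeGroup.ext_hom _ _ fun x => ?_; exact hfg x)

theorem mkAut_apply {X : Type} (f g : FreeGroup X →* FreeGroup X)
    (hfg : ∀ x, f (g (FreeGroup.of x)) = FreeGroup.of x)
    (hgf : ∀ x, g (f (FreeGroup.of x)) = FreeGroup.of x) (x : FreeGroup X) :
    mkAut f g hfg hgf x = f x := rfl

theorem aut_ext {X : Type} {f g : MulAut (FreeGroup X)}
    (h : ∀ x, f (FreeGroup.of x) = g (FreeGroup.of x)) : f = g := by
  have h1 : (f : FreeGroup X ≃* FreeGroup X).toMonoidHom =
      (g : FreeGroup X ≃* FreeGroup X).toMonoidHom := by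
    refine FreeGroup.ext_hom _ _ fun x => ?_
    exact h x
  refine MulEquiv.ext fun x => ?_
  exact DFunLike.congr_fun h1 x

section stab

variable {X Y : Type}

/-- the inclusion of the near part -/
def inn : FreeGroup X →* FreeGroup (X ⊕ Y) := FreeGroup.map Sum.inl

theorem inn_of (x : X) : (inn (Y := Y)) (FreeGroup.of x) = FreeGroup.of (Sum.inl x) :=
  FreeGroup.map.of

/-- extension of an endomorphism of the near part by the identity -/
def exE (f : FreeGroup X →* FreeGroup X) : FreeGroup (X ⊕ Y) →* FreeGroup (X ⊕ Y) :=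
  FreeGroup.lift (Sum.elim (fun x => inn (f (FreeGroup.of x))) (fun y => FreeGroup.of (Sum.inr y)))

theorem exE_inn (f : FreeGroup X →* FreeGroup X) (a : FreeGroup X) :
    exE (Y := Y) f (inn a) = inn (f a) := by
  have h : (exE (Y := Y) f).comp inn = inn.comp f := by
    refine FreeGroup.ext_hom _ _ fun x => ?_
    change exE f (inn (FreeGroup.of x)) = inn (f (FreeGroup.of x))
    rw [inn_of]
    exact FreeGroup.lift_apply_of
  exact DFunLike.congr_fun h a

theorem exE_inl (f : FreeGroup X →* FreeGroup X) (x : X) :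
    exE (Y := Y) f (FreeGroup.of (Sum.inl x)) = inn (f (FreeGroup.of x)) :=
  FreeGroup.lift_apply_of

theorem exE_inr (f : FreeGroup X →* FreeGroup X) (y : Y) :
    exE (Y := Y) f (FreeGroup.of (Sum.inr y)) = FreeGroup.of (Sum.inr y) :=
  FreeGroup.lift_apply_of

/-- stabilisation of automorphisms -/
def st : MulAut (FreeGroup X) →* MulAut (FreeGroup (X ⊕ Y)) where
  toFun φ := mkAut (exE (φ : FreeGroup X ≃* FreeGroup X).toMonoidHom)
    (exE (φ⁻¹ : FreeGroup X ≃* FreeGroup X).toMonoidHom)
    (by
      rintro (x | y)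
      · rw [exE_inl, exE_inn]
        change inn (φ (φ⁻¹ (FreeGroup.of x))) = _
        rw [MulAut.apply_inv_self, inn_of]
      · rw [exE_inr, exE_inr])
    (by
      rintro (x | y)
      · rw [exE_inl, exE_inn]
        change inn (φ⁻¹ (φ (FreeGroup.of x))) = _
        rw [MulAut.inv_apply_self, inn_of]
      · rw [exE_inr, exE_inr])
  map_one' := by
    refine aut_ext ?_
    rintro (x | y)
    · rw [mkAut_apply, exE_inl]
      exact inn_of x
    · rw [mkAut_apply, exE_inr]
      rfl
  map_mul' φ ψ := by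
    refine aut_ext ?_
    rintro (x | y)
    · rw [MulAut.mul_apply, mkAut_apply, mkAut_apply, mkAut_apply, exE_inl, exE_inl, exE_inn]
      rfl
    · rw [MulAut.mul_apply, mkAut_apply, mkAut_apply, mkAut_apply, exE_inr, exE_inr, exE_inr]

theorem st_inn (φ : MulAut (FreeGroup X)) (a : FreeGroup X) :
    st (Y := Y) φ (inn a) = inn (φ a) :=
  exE_inn _ a

theorem st_inl (φ : MulAut (FreeGroup X)) (x : X) :
    st (Y := Y) φ (FreeGroup.of (Sum.inl x)) = inn (φ (FreeGroup.of x)) :=
  exE_inl _ x

theorem st_inr (φ : MulAut (FreeGroup X)) (y : Y) :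
    st (Y := Y) φ (FreeGroup.of (Sum.inr y)) = FreeGroup.of (Sum.inr y) :=
  exE_inr (φ : FreeGroup X ≃* FreeGroup X).toMonoidHom y

theorem st_mem (φ : MulAut (FreeGroup X)) (h : φ ∈ IA (FreeGroup X)) :
    st (Y := Y) φ ∈ IA (FreeGroup (X ⊕ Y)) := by
  refine mem_IA_letters _ ?_
  rintro (x | y)
  · rw [st_inl, ← inn_of x]
    exact ab_congr inn (h _)
  · rw [st_inr]

/-- stabilisation of IA -/
def stI : IA (FreeGroup X) →* IA (FreeGroup (X ⊕ Y)) :=
  (st.comp (IA (FreeGroup X)).subtype).codRestrict (IA (FreeGroup (X ⊕ Y)))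
    (fun φ => st_mem φ.1 φ.2)

theorem stI_coe (φ : IA (FreeGroup X)) :
    ((stI (Y := Y) φ : IA (FreeGroup (X ⊕ Y))) : MulAut (FreeGroup (X ⊕ Y))) = st φ := rfl

/-- right multiplication of the far letters by near words: t ↦ t * a t -/
def rmE (a : Y → FreeGroup X) : FreeGroup (X ⊕ Y) →* FreeGroup (X ⊕ Y) :=
  FreeGroup.lift (Sum.elim (fun x => FreeGroup.of (Sum.inl x))
    (fun y => FreeGroup.of (Sum.inr y) * inn (a y)))

theorem rmE_inl (a : Y → FreeGroup X) (x : X) :
    rmE a (FreeGroup.of (Sum.inl x)) = FreeGroup.of (Sum.inl x) := FreeGroup.lift_apply_of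

theorem rmE_inr (a : Y → FreeGroup X) (y : Y) :
    rmE a (FreeGroup.of (Sum.inr y)) = FreeGroup.of (Sum.inr y) * inn (a y) :=
  FreeGroup.lift_apply_of

theorem rmE_inn (a : Y → FreeGroup X) (b : FreeGroup X) : rmE a (inn b) = inn b := by
  have h : (rmE a).comp inn = inn := by
    refine FreeGroup.ext_hom _ _ fun x => ?_
    change rmE a (inn (FreeGroup.of x)) = inn (FreeGroup.of x)
    rw [inn_of, rmE_inl]
  exact DFunLike.congr_fun h b

/-- the group of right multiplications -/
def rm : (Y → FreeGroup X) →* MulAut (FreeGroup (X ⊕ Y)) where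
  toFun a := mkAut (rmE a) (rmE a⁻¹)
    (by
      rintro (x | y)
      · rw [rmE_inl, rmE_inl]
      · rw [rmE_inr, map_mul, rmE_inr, rmE_inn, Pi.inv_apply, map_inv, mul_inv_cancel_right])
    (by
      rintro (x | y)
      · rw [rmE_inl, rmE_inl]
      · rw [rmE_inr, map_mul, rmE_inr, rmE_inn, Pi.inv_apply, map_inv, inv_mul_cancel_right])
  map_one' := by
    refine aut_ext ?_
    rintro (x | y)
    · rw [mkAut_apply, rmE_inl]; rfl
    · rw [mkAut_apply, rmE_inr, Pi.one_apply, map_one, mul_one]; rfl
  map_mul' a b := by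
    refine aut_ext ?_
    rintro (x | y)
    · rw [MulAut.mul_apply, mkAut_apply, mkAut_apply, mkAut_apply, rmE_inl, rmE_inl, rmE_inl]
    · rw [MulAut.mul_apply, mkAut_apply, mkAut_apply, mkAut_apply, rmE_inr, rmE_inr, map_mul,
        rmE_inr, rmE_inn, Pi.mul_apply, map_mul, mul_assoc]

theorem rm_inl (a : Y → FreeGroup X) (x : X) :
    rm a (FreeGroup.of (Sum.inl x)) = FreeGroup.of (Sum.inl x) := rmE_inl a x

theorem rm_inr (a : Y → FreeGroup X) (y : Y) :
    rm a (FreeGroup.of (Sum.inr y)) = FreeGroup.of (Sum.inr y) * inn (a y) := rmE_inr a y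

theorem rm_inn (a : Y → FreeGroup X) (b : FreeGroup X) : rm a (inn b) = inn b := rmE_inn a b

/-- the commutation rule -/
theorem st_rm (φ : MulAut (FreeGroup X)) (a : Y → FreeGroup X) :
    st φ * rm a = rm (fun y => φ (a y)) * st φ := by
  refine aut_ext ?_
  rintro (x | y)
  · rw [MulAut.mul_apply, MulAut.mul_apply, rm_inl, st_inl, rm_inn]
  · rw [MulAut.mul_apply, MulAut.mul_apply, rm_inr, map_mul, st_inr, st_inn, rm_inr]

theorem rm_mem (a : Y → FreeGroup X)
    (h : ∀ y, Abelianization.of (a y) = Abelianization.of (1 : FreeGroup X)) :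
    rm a ∈ IA (FreeGroup (X ⊕ Y)) := by
  refine mem_IA_letters _ ?_
  rintro (x | y)
  · rw [rm_inl]
  · rw [rm_inr, map_mul, ab_congr inn (h y), map_one, map_one, mul_one]

end stab

end Pool.Agent.TOR.H57
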