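import Pool.Agent.Helper57_TOR.Cr4

/-!
# Cross effects, part 5: the cross effect theorem for commuting subgroups
-/

set_option autoImplicit false

namespace Pool.Agent.TOR.H57

open CategoryTheory CategoryTheory.Limits Rep Representation

universe u

/-- CROSS EFFECT THEOREM. `s J : G → Γ` (J a subset of ι) are homomorphisms,
`A i` are pairwise commuting subgroups of Γ normalised by `s ∅`, acting trivially on `N`, and
`s (insert i J) g = c i g * s J g` with `c i g ∈ A i`. Then the alternating sum (over the subsets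
J of S) of the maps induced by the `s (J₀ ∪ J)` on the homology in degree `n < |S|` is zero. -/
theorem cross_effect_gen {k Γ G : Type u} [CommRing k] [Group Γ] [Group G] {ι : Type} [Fintype ι]
    [DecidableEq ι] (s : Finset ι → (G →* Γ)) (A : ι → Subgroup Γ)
    (h1 : ∀ i j, i ≠ j → ∀ a ∈ A i, ∀ b ∈ A j, a * b = b * a)
    (h2 : ∀ i, ∀ a ∈ A i, ∀ g, s ∅ g * a * (s ∅ g)⁻¹ ∈ A i)
    (h3 : ∀ i g, ∃ a ∈ A i, ∀ J, i ∉ J → s (insert i J) g = a * s J g)
    (N : Rep.{u} k Γ) (h4 : ∀ i, ∀ a ∈ A i, N.ρ a = 1) (J₀ S : Finset ι) (hd : Disjoint J₀ S)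
    (n : ℕ) (hn : n < S.card) (y : groupHomology (res (s J₀) N) n) :
    ∑ J ∈ S.powerset, ((-1 : ℤ) ^ J.card) • hl (s J₀) (s (J₀ ∪ J)) N n y = 0 := by
  choose c hcA hcs using h3
  -- the conjugation action
  let φ : ∀ i, G →* MulAut (A i) := fun i =>
    { toFun := fun g =>
        { toFun := fun a => ⟨s ∅ g * a * (s ∅ g)⁻¹, h2 i a a.2 g⟩
          invFun := fun a => ⟨(s ∅ g)⁻¹ * a * s ∅ g, by
            have h := h2 i a a.2 g⁻¹
            rwa [map_inv, inv_inv] at h⟩
          left_inv := fun a => Subtype.ext (by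
            change (s ∅ g)⁻¹ * (s ∅ g * a * (s ∅ g)⁻¹) * s ∅ g = a
            group)
          right_inv := fun a => Subtype.ext (by
            change s ∅ g * ((s ∅ g)⁻¹ * a * s ∅ g) * (s ∅ g)⁻¹ = a
            group)
          map_mul' := fun a b => Subtype.ext (by
            change s ∅ g * (a * b) * (s ∅ g)⁻¹ =
              (s ∅ g * a * (s ∅ g)⁻¹) * (s ∅ g * b * (s ∅ g)⁻¹)
            group) }
      map_one' := by
        ext a
        change s ∅ 1 * (a : Γ) * (s ∅ 1)⁻¹ = a
        simp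
      map_mul' := fun g h => by
        ext a
        change s ∅ (g * h) * (a : Γ) * (s ∅ (g * h))⁻¹ =
          s ∅ g * (s ∅ h * a * (s ∅ h)⁻¹) * (s ∅ g)⁻¹
        rw [map_mul]
        group }
  have hφ : ∀ i g (a : A i), ((φ i g a : A i) : Γ) = s ∅ g * a * (s ∅ g)⁻¹ := fun i g a => rfl
  let c' : ∀ i, G → A i := fun i g => ⟨c i g, hcA i g⟩
  have hc1 : ∀ i g, s {i} g = c i g * s ∅ g := fun i g => hcs i g ∅ (Finset.notMem_empty i)
  have hc' : ∀ i g h, c' i (g * h) = c' i g * φ i g (c' i h) := by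
    intro i g h
    refine Subtype.ext ?_
    change c i (g * h) = c i g * (s ∅ g * c i h * (s ∅ g)⁻¹)
    have e1 := hc1 i (g * h)
    rw [map_mul, map_mul, hc1 i g, hc1 i h] at e1
    have e2 : c i (g * h) = c i g * s ∅ g * (c i h * s ∅ h) * (s ∅ g * s ∅ h)⁻¹ := by
      rw [e1, mul_inv_cancel_right]
    rw [e2]
    group
  have hcomm : Pairwise fun i j => ∀ (x : A i) (y : A j), Commute (((A i).subtype) x)
      (((A j).subtype) y) := fun i j hij x y => h1 i j hij x x.2 y y.2
  let P : (∀ i, A i) →* Γ := MonoidHom.noncommPiCoprod (fun i => (A i).subtype) hcomm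
  have hP : ∀ i (b : A i), P (Pi.mulSingle i b) = b := fun i b =>
    MonoidHom.noncommPiCoprod_mulSingle (N := fun i => A i) (M := Γ)
      (fun i => (A i).subtype) (hcomm := hcomm) i b
  have hPc : ∀ g, P.comp (MulEquiv.toMonoidHom (Cross.piAut φ g)) =
      (MulEquiv.toMonoidHom (MulAut.conj (s ∅ g))).comp P := by
    intro g
    refine MonoidHom.pi_ext fun i b => ?_
    change P (Cross.piAut φ g (Pi.mulSingle i b)) = s ∅ g * P (Pi.mulSingle i b) * (s ∅ g)⁻¹
    have e1 : Cross.piAut φ g (Pi.mulSingle i b) = Pi.mulSingle i (φ i g b) := by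
      funext j
      rw [Cross.piAut_apply]
      by_cases hj : j = i
      · subst hj
        rw [Pi.mulSingle_eq_same, Pi.mulSingle_eq_same]
      · rw [Pi.mulSingle_eq_of_ne hj, Pi.mulSingle_eq_of_ne hj, map_one]
    rw [e1, hP, hP, hφ]
  let Φ : Cross.Ext φ →* Γ := SemidirectProduct.lift P (s ∅) hPc
  have hΦ : ∀ e, Φ e = P e.left * s ∅ e.right := fun e => rfl
  have hsec : ∀ J g, Φ (Cross.sec φ c' hc' J g) = s J g := by
    intro J
    induction J using Finset.induction_on with
    | empty =>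
      intro g
      rw [hΦ]
      have e1 : (Cross.sec φ c' hc' ∅ g).left = 1 := by
        funext i
        rw [Cross.sec_left, if_neg (Finset.notMem_empty i)]
        rfl
      rw [e1, map_one, one_mul, Cross.sec_right]
    | insert i J hi ih =>
      intro g
      rw [hcs i g J hi, ← ih g, hΦ, hΦ, Cross.sec_right, Cross.sec_right, ← mul_assoc]
      have e1 : (Cross.sec φ c' hc' (insert i J) g).left =
          Pi.mulSingle i (c' i g) * (Cross.sec φ c' hc' J g).left := by
        funext j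
        rw [Pi.mul_apply, Cross.sec_left, Cross.sec_left]
        by_cases hj : j = i
        · subst hj
          rw [Pi.mulSingle_eq_same, if_pos (Finset.mem_insert_self _ _), if_neg hi, mul_one]
        · rw [Pi.mulSingle_eq_of_ne hj, one_mul]
          by_cases hjJ : j ∈ J
          · rw [if_pos hjJ, if_pos (Finset.mem_insert_of_mem hjJ)]
          · rw [if_neg hjJ, if_neg (fun h => hjJ (Finset.mem_of_mem_insert_of_ne h hj))]
      rw [e1, map_mul, hP]
  have hΦt : ∀ i b, Φ (Cross.tau φ i b) = b := by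
    intro i b
    rw [hΦ, Cross.tau_right, map_one, mul_one]
    exact hP i b
  have hM : ∀ i ∈ S, ∀ b, (res Φ N).ρ (Cross.tau φ i b) = 1 := by
    intro i _ b
    change N.ρ (Φ (Cross.tau φ i b)) = 1
    rw [hΦt, h4 i b b.2]
  have hρ : ∀ J g, (res Φ N).ρ (Cross.sec φ c' hc' J g) = N.ρ (s J g) := by
    intro J g
    change N.ρ (Φ (Cross.sec φ c' hc' J g)) = N.ρ (s J g)
    rw [hsec]
  have hsJ : ∀ J g, N.ρ (s ∅ g) = N.ρ (s J g) := by
    intro J
    induction J using Finset.induction_on with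
    | empty => intro g; rfl
    | insert i J hi ih =>
      intro g
      rw [hcs i g J hi, map_mul, h4 i _ (hcA i g), one_mul, ih g]
  let σ : Finset ι → (G →* Cross.Ext φ) := Cross.sec φ c' hc'
  let M : Rep.{u} k (Cross.Ext φ) := res Φ N
  let ψ : res (s J₀) N ⟶ res (σ J₀) M := ofHom ⟨LinearMap.id, fun g => by
    change LinearMap.id ∘ₗ N.ρ (s J₀ g) = (res Φ N).ρ (Cross.sec φ c' hc' J₀ g) ∘ₗ LinearMap.id
    rw [hρ J₀ g, LinearMap.id_comp, LinearMap.comp_id]⟩
  let y' : groupHomology (res (σ J₀) M) n := (groupHomology.map (MonoidHom.id G)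
    (A := res (s J₀) N) (B := res (σ J₀) M) ψ n).hom y
  let L : groupHomology M n →ₗ[k] groupHomology N n :=
    (groupHomology.map (A := M) (B := N) Φ (𝟙 (res Φ N)) n).hom
  have hσ : ∀ J g, M.ρ (σ J₀ g) = M.ρ (σ J g) := by
    intro J g
    change (res Φ N).ρ (Cross.sec φ c' hc' J₀ g) = (res Φ N).ρ (Cross.sec φ c' hc' J g)
    rw [hρ, hρ, ← hsJ J g, ← hsJ J₀ g]
  have hsJ' : ∀ J g, N.ρ (s J₀ g) = N.ρ (s J g) := fun J g => (hsJ J₀ g).symm.trans (hsJ J g)
  have hL : ∀ J, L (hl (σ J₀) (σ J) M n y') = hl (s J₀) (s J) N n y := by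
    intro J
    rw [hl_eq _ _ _ _ (hσ J), hl_eq _ _ _ _ (hsJ' J)]
    have e1 := groupHomology.map_comp (A := res (s J₀) N) (B := res (σ J₀) M) (C := M)
      (MonoidHom.id G) (σ J) ψ (idr (σ J₀) (σ J) M (hσ J)) n
    have e2 := groupHomology.map_comp (A := res (s J₀) N) (B := M) (C := N)
      ((σ J).comp (MonoidHom.id G)) Φ
      (ψ ≫ (resFunctor (MonoidHom.id G)).map (idr (σ J₀) (σ J) M (hσ J))) (𝟙 (res Φ N)) n
    rw [e1] at e2
    have e4 : groupHomology.map (A := res (s J₀) N) (B := N)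
        (Φ.comp ((σ J).comp (MonoidHom.id G)))
        ((ψ ≫ (resFunctor (MonoidHom.id G)).map (idr (σ J₀) (σ J) M (hσ J))) ≫
          (resFunctor ((σ J).comp (MonoidHom.id G))).map (𝟙 (res Φ N))) n =
        groupHomology.map (A := res (s J₀) N) (B := N) (s J)
          (idr (s J₀) (s J) N (hsJ' J)) n := by
      refine groupHomology.map_congr (MonoidHom.ext fun g => ?_) ?_ n
      · exact hsec J g
      · rfl
    exact congrArg (fun φ : groupHomology (res (s J₀) N) n ⟶ groupHomology N n => φ.hom y)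
      (e2.symm.trans e4)
  have hfin := Cross.cross_effect_ext φ c' hc' S J₀ hd M hM n hn y'
  have h5 := congrArg L hfin
  rw [map_sum, map_zero] at h5
  rw [← h5]
  refine Finset.sum_congr rfl fun J _ => ?_
  rw [map_zsmul]
  congr 1
  exact (hL (J₀ ∪ J)).symm

/-- Cross effect theorem, all subsets. -/
theorem cross_effect {k Γ G : Type u} [CommRing k] [Group Γ] [Group G] {ι : Type} [Fintype ι]
    [DecidableEq ι] (s : Finset ι → (G →* Γ)) (A : ι → Subgroup Γ)
    (h1 : ∀ i j, i ≠ j → ∀ a ∈ A i, ∀ b ∈ A j, a * b = b * a)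
    (h2 : ∀ i, ∀ a ∈ A i, ∀ g, s ∅ g * a * (s ∅ g)⁻¹ ∈ A i)
    (h3 : ∀ i g, ∃ a ∈ A i, ∀ J, i ∉ J → s (insert i J) g = a * s J g)
    (N : Rep.{u} k Γ) (h4 : ∀ i, ∀ a ∈ A i, N.ρ a = 1) (n : ℕ) (hn : n < Fintype.card ι)
    (y : groupHomology (res (s ∅) N) n) :
    ∑ J : Finset ι, ((-1 : ℤ) ^ J.card) • hl (s ∅) (s J) N n y = 0 := by
  have h := cross_effect_gen s A h1 h2 h3 N h4 ∅ Finset.univ (Finset.disjoint_empty_left _) n
    (by rw [Finset.card_univ]; exact hn) y
  rw [Finset.powerset_univ] at h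
  rw [← h]
  exact Finset.sum_congr rfl fun J _ => by rw [Finset.empty_union]

/-- Descending induction: if the maps induced by the `s J` with `|J| ≥ r` vanish in degree n and
`r + n ≤ |ι|`, then all the maps induced by the `s J` vanish in degree n. -/
theorem cross_descend {k Γ G : Type u} [CommRing k] [Group Γ] [Group G] {ι : Type} [Fintype ι]
    [DecidableEq ι] (s : Finset ι → (G →* Γ)) (A : ι → Subgroup Γ)
    (h1 : ∀ i j, i ≠ j → ∀ a ∈ A i, ∀ b ∈ A j, a * b = b * a)
    (h2 : ∀ i, ∀ a ∈ A i, ∀ g, s ∅ g * a * (s ∅ g)⁻¹ ∈ A i)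
    (h3 : ∀ i g, ∃ a ∈ A i, ∀ J, i ∉ J → s (insert i J) g = a * s J g)
    (N : Rep.{u} k Γ) (h4 : ∀ i, ∀ a ∈ A i, N.ρ a = 1) (n r : ℕ) (hn : r + n ≤ Fintype.card ι)
    (h5 : ∀ J : Finset ι, r ≤ J.card → hl (s ∅) (s J) N n = 0) (J : Finset ι) :
    hl (s ∅) (s J) N n = 0 := by
  have hagr : ∀ (J : Finset ι) g, N.ρ (s ∅ g) = N.ρ (s J g) := by
    intro J
    induction J using Finset.induction_on with
    | empty => intro g; rfl
    | insert i J hi ih =>
      intro g
      obtain ⟨a, ha, hs⟩ := h3 i g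
      rw [hs J hi, map_mul, h4 i _ ha, one_mul, ih g]
  have key : ∀ m : ℕ, ∀ J : Finset ι, Fintype.card ι - J.card = m →
      hl (s ∅) (s J) N n = 0 := by
    intro m
    induction m using Nat.strong_induction_on with
    | _ m ih =>
      intro J hJ
      by_cases hr : r ≤ J.card
      · exact h5 J hr
      push Not at hr
      refine LinearMap.ext fun y => ?_
      set y' : groupHomology (res (s J) N) n := (groupHomology.map (MonoidHom.id G)
        (A := res (s ∅) N) (B := res (s J) N) (idr (s ∅) (s J) N (hagr J)) n).hom y with hy'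
      have hcard : (Jᶜ : Finset ι).card = Fintype.card ι - J.card := Finset.card_compl J
      have h := cross_effect_gen s A h1 h2 h3 N h4 J Jᶜ disjoint_compl_right n
        (by rw [hcard]; omega) y'
      have htr : ∀ K : Finset ι, hl (s J) (s (J ∪ K)) N n y' = hl (s ∅) (s (J ∪ K)) N n y :=
        fun K => (hl_trans (s ∅) (s J) (s (J ∪ K)) N n (hagr J)
          (fun g => ((hagr J g).symm.trans (hagr (J ∪ K) g))) y).symm
      rw [Finset.sum_eq_single_of_mem ∅ (Finset.empty_mem_powerset _)] at h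
      · rw [htr ∅, Finset.union_empty, Finset.card_empty, pow_zero, one_smul] at h
        exact h
      · intro K hK hK0
        rw [htr K]
        have hKd : Disjoint J K :=
          Finset.disjoint_of_subset_right (Finset.mem_powerset.1 hK) disjoint_compl_right
        have hc1 : (J ∪ K).card = J.card + K.card := Finset.card_union_of_disjoint hKd
        have hc2 : 0 < K.card := Finset.card_pos.2 (Finset.nonempty_iff_ne_empty.2 hK0)
        have hc3 : (J ∪ K).card ≤ Fintype.card ι := Finset.card_le_univ _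
        rw [ih (Fintype.card ι - (J ∪ K).card) (by omega) (J ∪ K) rfl]
        rw [LinearMap.zero_apply, smul_zero]
  exact key _ J rfl

end Pool.Agent.TOR.H57
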