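import Pool.Agent.Helper41_TOR.Ho
import Pool.Agent.Helper41_TOR.Cj

/-!
# Cross effects, part 1: the Shapiro homotopy
-/

set_option autoImplicit false

namespace Pool.Agent.TOR.H57

open CategoryTheory CategoryTheory.Limits Rep Representation

universe u

variable {k E : Type u} [CommRing k] [Group E]

/-- permutation modules are functorial in the coefficients -/
noncomputable def permC (X : Type u) [MulAction E X] {A B : Rep.{u} k E} (φ : A ⟶ B) :
    perm X A ⟶ perm X B :=
  ofHom ⟨Finsupp.mapRange.linearMap φ.hom.toLinearMap, fun g => by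
    refine Finsupp.lhom_ext fun x a => ?_
    change Finsupp.mapRange.linearMap φ.hom.toLinearMap (permR X A g (Finsupp.single x a)) =
      permR X B g (Finsupp.mapRange.linearMap φ.hom.toLinearMap (Finsupp.single x a))
    rw [permR_single, Finsupp.mapRange.linearMap_apply, Finsupp.mapRange.linearMap_apply,
      Finsupp.mapRange_single, Finsupp.mapRange_single, permR_single]
    congr 1
    exact hom_comm_apply φ g a⟩

theorem permC_apply (X : Type u) [MulAction E X] {A B : Rep.{u} k E} (φ : A ⟶ B)
    (c : X →₀ A) (x : X) : (show X →₀ B from (permC X φ).hom c) x = φ.hom (c x) := rfl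

theorem permC_single (X : Type u) [MulAction E X] {A B : Rep.{u} k E} (φ : A ⟶ B)
    (x : X) (a : A) : (permC X φ).hom (Finsupp.single x a) = Finsupp.single x (φ.hom a) :=
  Finsupp.mapRange_single (hf := map_zero _)

/-- The short complex perm X S. -/
noncomputable def permS (X : Type u) [MulAction E X] (S : ShortComplex (Rep.{u} k E)) :
    ShortComplex (Rep.{u} k E) :=
  ShortComplex.mk (permC X S.f) (permC X S.g) (by
    refine Rep.hom_ext (DFunLike.ext _ _ fun c => ?_)
    refine Finsupp.ext fun x => ?_
    change S.g.hom (S.f.hom ((show X →₀ S.X₁ from c) x)) = 0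
    have h := congrArg (fun f : S.X₁ ⟶ S.X₃ => f.hom ((show X →₀ S.X₁ from c) x)) S.zero
    exact h)

theorem permS_exact (X : Type u) [MulAction E X] {S : ShortComplex (Rep.{u} k E)}
    (hS : S.ShortExact) : (permS X S).ShortExact where
  exact := by
    have hx : ∀ x : S.X₂, S.g.hom x = 0 → ∃ y : S.X₁, S.f.hom y = x := by
      have h1 := hS.exact
      rw [← ShortComplex.exact_map_iff_of_faithful S (forget₂ (Rep.{u} k E) (ModuleCat.{u} k)),
        ShortComplex.moduleCat_exact_iff] at h1
      exact h1
    choose! s hs using hx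
    refine rep_exact fun c hc => ?_
    classical
    have hc' : ∀ x : X, S.g.hom ((show X →₀ S.X₂ from c) x) = 0 := fun x =>
      DFunLike.congr_fun (show (show X →₀ S.X₃ from (permC X S.g).hom c) = 0 from hc) x
    refine ⟨Finsupp.onFinset (show X →₀ S.X₂ from c).support
      (fun x => if (show X →₀ S.X₂ from c) x = 0 then 0 else s ((show X →₀ S.X₂ from c) x)) ?_, ?_⟩
    · intro x hx
      rw [Finsupp.mem_support_iff]
      intro h
      exact hx (if_pos h)
    · refine Finsupp.ext fun x => ?_
      change S.f.hom (if (show X →₀ S.X₂ from c) x = 0 then 0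
        else s ((show X →₀ S.X₂ from c) x)) = (show X →₀ S.X₂ from c) x
      split_ifs with h
      · rw [map_zero, h]
      · exact hs _ (hc' x)
  mono_f := by
    have h1 := (Rep.mono_iff_injective S.f).1 hS.mono_f
    refine (Rep.mono_iff_injective _).2 ?_
    exact Finsupp.mapRange_injective _ (map_zero _) h1
  epi_g := by
    have h1 := (Rep.epi_iff_surjective S.g).1 hS.epi_g
    refine (Rep.epi_iff_surjective _).2 ?_
    exact Finsupp.mapRange_surjective _ (map_zero _) h1

/-- `[x] ⊗ p ↦ (τ x)⁻¹ p`, equivariant for the twisted action. -/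
noncomputable def ptw (X : Type u) [MulAction E X] (τ : X → E) (f : E →* E)
    (hf : ∀ (e : E) (x : X), f e = (τ (e • x))⁻¹ * e * τ x) (P : Rep.{u} k E) :
    perm X P ⟶ res f P :=
  ofHom ⟨Finsupp.lsum k (fun x => P.ρ (τ x)⁻¹), fun g => by
    refine Finsupp.lhom_ext fun x a => ?_
    change Finsupp.lsum k (fun x => P.ρ (τ x)⁻¹) (permR X P g (Finsupp.single x a)) =
      P.ρ (f g) (Finsupp.lsum k (fun x => P.ρ (τ x)⁻¹) (Finsupp.single x a))
    rw [permR_single, Finsupp.lsum_single, Finsupp.lsum_single, ← Module.End.mul_apply,
      ← Module.End.mul_apply, ← map_mul, ← map_mul, hf g x]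
    congr 2
    group⟩

theorem ptw_single (X : Type u) [MulAction E X] (τ : X → E) (f : E →* E)
    (hf : ∀ (e : E) (x : X), f e = (τ (e • x))⁻¹ * e * τ x) (P : Rep.{u} k E) (x : X) (a : P) :
    (ptw X τ f hf P).hom (Finsupp.single x a) = P.ρ (τ x)⁻¹ a := by
  change Finsupp.lsum k (fun x => P.ρ (τ x)⁻¹) (Finsupp.single x a) = _
  rw [Finsupp.lsum_single]

/-- Shapiro homotopy: the two maps from the homology of the permutation module agree. -/
theorem shapiro_homotopy (X : Type u) [MulAction E X] (τ : X → E) (f : E →* E)
    (hf : ∀ (e : E) (x : X), f e = (τ (e • x))⁻¹ * e * τ x) (n : ℕ) : ∀ P : Rep.{u} k E,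
    groupHomology.map (MonoidHom.id E) (aug X P) n =
      groupHomology.map f (ptw X τ f hf P) n := by
  classical
  induction n with
  | zero =>
    intro P
    rw [← cancel_epi (groupHomology.H0π (perm X P))]
    have h1 := groupHomology.H0π_comp_map (MonoidHom.id E) (B := P) (aug X P)
    have h2 := groupHomology.H0π_comp_map f (B := P) (ptw X τ f hf P)
    rw [h1, h2, ← cancel_mono (groupHomology.H0Iso P).hom]
    have h3 : (Coinvariants.mk P.ρ) ∘ₗ
        (Finsupp.lsum k (fun _ : X => (LinearMap.id : P →ₗ[k] P))) =
        (Coinvariants.mk P.ρ) ∘ₗ (Finsupp.lsum k (fun x : X => P.ρ (τ x)⁻¹)) := by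
      refine Finsupp.lhom_ext fun x a => ?_
      rw [LinearMap.comp_apply, LinearMap.comp_apply, Finsupp.lsum_single, Finsupp.lsum_single]
      refine ((Coinvariants.mk_eq_iff _).2 ?_).symm
      exact Coinvariants.sub_mem_ker _ _
    ext c
    simp only [Category.assoc, groupHomology.H0π_comp_H0Iso_hom, ModuleCat.hom_comp,
      LinearMap.comp_apply]
    exact LinearMap.congr_fun h3 c
  | succ n ih =>
    intro P
    let S := ses (⊥ : Subgroup E) P
    have hS : S.ShortExact := ses_exact _ P
    have hS' : (permS X S).ShortExact := permS_exact X hS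
    have nat1 : ∀ {B C : Rep.{u} k E} (g : B ⟶ C),
        groupHomology.chainsMap (MonoidHom.id E) (aug X B) ≫
          groupHomology.chainsMap (MonoidHom.id E) g =
        groupHomology.chainsMap (MonoidHom.id E) (permC X g) ≫
          groupHomology.chainsMap (MonoidHom.id E) (aug X C) := by
      intro B C g
      rw [← groupHomology.chainsMap_comp, ← groupHomology.chainsMap_comp]
      refine groupHomology.chainsMap_congr rfl ?_
      refine Finsupp.lhom_ext fun x a => ?_
      change g.hom ((aug X B).hom (Finsupp.single x a)) =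
        (aug X C).hom ((permC X g).hom (Finsupp.single x a))
      rw [permC_single, aug_single, aug_single]
    have nat2 : ∀ {B C : Rep.{u} k E} (g : B ⟶ C),
        groupHomology.chainsMap f (ptw X τ f hf B) ≫
          groupHomology.chainsMap (MonoidHom.id E) g =
        groupHomology.chainsMap (MonoidHom.id E) (permC X g) ≫
          groupHomology.chainsMap f (ptw X τ f hf C) := by
      intro B C g
      rw [← groupHomology.chainsMap_comp, ← groupHomology.chainsMap_comp]
      refine groupHomology.chainsMap_congr rfl ?_
      refine Finsupp.lhom_ext fun x a => ?_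
      change g.hom ((ptw X τ f hf B).hom (Finsupp.single x a)) =
        (ptw X τ f hf C).hom ((permC X g).hom (Finsupp.single x a))
      rw [permC_single, ptw_single, ptw_single]
      exact hom_comm_apply g _ a
    let φ : (permS X S).map (groupHomology.chainsFunctor k E) ⟶
        S.map (groupHomology.chainsFunctor k E) :=
      { τ₁ := groupHomology.chainsMap (MonoidHom.id E) (aug X _)
        τ₂ := groupHomology.chainsMap (MonoidHom.id E) (aug X _)
        τ₃ := groupHomology.chainsMap (MonoidHom.id E) (aug X _)
        comm₁₂ := nat1 _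
        comm₂₃ := nat1 _ }
    let ψ : (permS X S).map (groupHomology.chainsFunctor k E) ⟶
        S.map (groupHomology.chainsFunctor k E) :=
      { τ₁ := groupHomology.chainsMap f (ptw X τ f hf _)
        τ₂ := groupHomology.chainsMap f (ptw X τ f hf _)
        τ₃ := groupHomology.chainsMap f (ptw X τ f hf _)
        comm₁₂ := nat2 _
        comm₂₃ := nat2 _ }
    have hn1 := HomologicalComplex.HomologySequence.δ_naturality φ
      (groupHomology.map_chainsFunctor_shortExact hS')
      (groupHomology.map_chainsFunctor_shortExact hS) (n+1) n (by simp)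
    have hn2 := HomologicalComplex.HomologySequence.δ_naturality ψ
      (groupHomology.map_chainsFunctor_shortExact hS')
      (groupHomology.map_chainsFunctor_shortExact hS) (n+1) n (by simp)
    have hm : Mono (groupHomology.δ hS (n + 1) n rfl) :=
      groupHomology.mono_δ_of_isZero hS n (van_ind_bot P n)
    have h1 : HomologicalComplex.homologyMap φ.τ₁ n = HomologicalComplex.homologyMap ψ.τ₁ n :=
      ih S.X₁
    have h2 : groupHomology.map (MonoidHom.id E) (aug X S.X₃) (n + 1) =
        groupHomology.map f (ptw X τ f hf S.X₃) (n + 1) := by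
      refine (cancel_mono (groupHomology.δ hS (n + 1) n rfl)).1 ?_
      rw [h1] at hn1
      exact hn1.symm.trans hn2
    exact h2

end Pool.Agent.TOR.H57
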