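import Pool.Agent.Helper57_TOR.Cr1

/-!
# Cross effects, part 2: the abstract cross effect theorem
-/

set_option autoImplicit false

namespace Pool.Agent.TOR.H57

open CategoryTheory CategoryTheory.Limits Rep Representation

universe u

variable {k G E : Type u} [CommRing k] [Group G] [Group E]

/-- the identity map between two restrictions which agree -/
noncomputable def idr (f g : G →* E) (M : Rep.{u} k E) (h : ∀ x, M.ρ (f x) = M.ρ (g x)) :
    res f M ⟶ res g M :=
  ofHom ⟨LinearMap.id, fun x => by
    change LinearMap.id ∘ₗ M.ρ (f x) = M.ρ (g x) ∘ₗ LinearMap.id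
    rw [h x, LinearMap.id_comp, LinearMap.comp_id]⟩

theorem idr_apply (f g : G →* E) (M : Rep.{u} k E) (h : ∀ x, M.ρ (f x) = M.ρ (g x)) (m : M) :
    (idr f g M h).hom m = m := rfl

/-- the map induced by g on homology, coefficients identified through f -/
noncomputable def hf (f g : G →* E) (M : Rep.{u} k E) (n : ℕ)
    (h : ∀ x, M.ρ (f x) = M.ρ (g x)) :
    groupHomology (res f M) n ⟶ groupHomology M n :=
  groupHomology.map g (idr f g M h) n

/-- naturality of the connecting homomorphism for a change of groups -/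
theorem hf_delta (f g : G →* E) {S : ShortComplex (Rep.{u} k E)} (hS : S.ShortExact) (n : ℕ)
    (h1 : ∀ x, S.X₁.ρ (f x) = S.X₁.ρ (g x)) (h2 : ∀ x, S.X₂.ρ (f x) = S.X₂.ρ (g x))
    (h3 : ∀ x, S.X₃.ρ (f x) = S.X₃.ρ (g x)) :
    hf f g S.X₃ (n + 1) h3 ≫ groupHomology.δ hS (n + 1) n rfl =
      groupHomology.δ ((Rep.shortExact_res f).2 hS) (n + 1) n rfl ≫ hf f g S.X₁ n h1 := by
  have hS' : (S.map (resFunctor.{u} f)).ShortExact := (Rep.shortExact_res f).2 hS
  let φ : (S.map (resFunctor.{u} f)).map (groupHomology.chainsFunctor k G) ⟶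
      S.map (groupHomology.chainsFunctor k E) :=
    { τ₁ := groupHomology.chainsMap g (idr f g S.X₁ h1)
      τ₂ := groupHomology.chainsMap g (idr f g S.X₂ h2)
      τ₃ := groupHomology.chainsMap g (idr f g S.X₃ h3)
      comm₁₂ := by
        change groupHomology.chainsMap g (idr f g S.X₁ h1) ≫
            groupHomology.chainsMap (MonoidHom.id E) S.f =
          groupHomology.chainsMap (MonoidHom.id G) ((resFunctor.{u} f).map S.f) ≫
            groupHomology.chainsMap g (idr f g S.X₂ h2)
        rw [← groupHomology.chainsMap_comp, ← groupHomology.chainsMap_comp]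
        exact groupHomology.chainsMap_congr rfl rfl
      comm₂₃ := by
        change groupHomology.chainsMap g (idr f g S.X₂ h2) ≫
            groupHomology.chainsMap (MonoidHom.id E) S.g =
          groupHomology.chainsMap (MonoidHom.id G) ((resFunctor.{u} f).map S.g) ≫
            groupHomology.chainsMap g (idr f g S.X₃ h3)
        rw [← groupHomology.chainsMap_comp, ← groupHomology.chainsMap_comp]
        exact groupHomology.chainsMap_congr rfl rfl }
  have hn := HomologicalComplex.HomologySequence.δ_naturality φ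
    (groupHomology.map_chainsFunctor_shortExact hS')
    (groupHomology.map_chainsFunctor_shortExact hS) (n+1) n (by simp)
  exact hn.symm

theorem hf_trans (f f' g : G →* E) (M : Rep.{u} k E) (n : ℕ)
    (h : ∀ x, M.ρ (f x) = M.ρ (g x)) (h1 : ∀ x, M.ρ (f x) = M.ρ (f' x))
    (h2 : ∀ x, M.ρ (f' x) = M.ρ (g x)) :
    hf f g M n h = groupHomology.map (MonoidHom.id G) (A := res f M) (B := res f' M)
      (idr f f' M h1) n ≫ hf f' g M n h2 := by
  unfold hf
  rw [← groupHomology.map_comp]
  exact groupHomology.map_congr rfl rfl n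

/-- post-composition with an endomorphism acting in the same way -/
noncomputable def he (f : E →* E) (M : Rep.{u} k E) (n : ℕ) (h : ∀ x, M.ρ x = M.ρ (f x)) :
    groupHomology M n ⟶ groupHomology M n :=
  hf (MonoidHom.id E) f M n h

theorem hf_he (f g : G →* E) (e : E →* E) (M : Rep.{u} k E) (n : ℕ)
    (h : ∀ x, M.ρ (f x) = M.ρ (g x)) (h' : ∀ x, M.ρ x = M.ρ (e x)) :
    hf f g M n h ≫ he e M n h' = hf f (e.comp g) M n (fun x => by rw [h x, h' (g x)]; rfl) := by
  unfold he hf
  have h1 := groupHomology.map_comp (A := res f M) (B := M) (C := M) g e (idr f g M h)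
    (idr (MonoidHom.id E) e M h') n
  refine Eq.trans h1.symm ?_
  exact groupHomology.map_congr rfl rfl n

/-- 0 → K → k[X] ⊗ M → M → 0 -/
noncomputable def sesX (X : Type u) [MulAction E X] (M : Rep.{u} k E) :
    ShortComplex (Rep.{u} k E) :=
  ShortComplex.mk (kernel.ι (aug X M)) (aug X M) (kernel.condition _)

theorem sesX_exact (X : Type u) [MulAction E X] [Nonempty X] (M : Rep.{u} k E) :
    (sesX X M).ShortExact where
  exact := ShortComplex.exact_kernel _
  mono_f := by dsimp [sesX]; infer_instance
  epi_g := by dsimp [sesX]; infer_instance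

section key

variable (X : Type u) [MulAction E X] (τ : X → E) (f : E →* E)
  (hf' : ∀ (e : E) (x : X), f e = (τ (e • x))⁻¹ * e * τ x)

include hf' in
theorem good_act [Nonempty X] (M : Rep.{u} k E) (hM : ∀ x, M.ρ (τ x) = 1) (e : E) :
    M.ρ e = M.ρ (f e) := by
  obtain ⟨x⟩ := ‹Nonempty X›
  have h1 : M.ρ (τ (e • x))⁻¹ = 1 := by
    have h2 : M.ρ (τ (e • x))⁻¹ * M.ρ (τ (e • x)) = 1 := by
      rw [← map_mul, inv_mul_cancel, map_one]
    rw [hM, mul_one] at h2
    exact h2
  rw [hf' e x, map_mul, map_mul, hM, h1, one_mul, mul_one]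

/-- classes coming from the permutation module are fixed by the retraction f -/
theorem he_of_aug [Nonempty X] (M : Rep.{u} k E) (hM : ∀ x, M.ρ (τ x) = 1) (n : ℕ)
    (w : groupHomology (perm X M) n) :
    (he f M n (good_act X τ f hf' M hM)).hom
      ((groupHomology.map (MonoidHom.id E) (aug X M) n).hom w) =
    (groupHomology.map (MonoidHom.id E) (aug X M) n).hom w := by
  have h1 := shapiro_homotopy X τ f hf' n M
  have h2 : groupHomology.map (MonoidHom.id E) (aug X M) n ≫ he f M n (good_act X τ f hf' M hM) =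
      groupHomology.map f (ptw X τ f hf' M) n := by
    unfold he hf
    have h3 := groupHomology.map_comp (A := perm X M) (B := M) (C := M) (MonoidHom.id E) f
      (aug X M) (idr (MonoidHom.id E) f M (good_act X τ f hf' M hM)) n
    refine h3.symm.trans ?_
    refine groupHomology.map_congr rfl ?_ n
    refine Finsupp.lhom_ext fun x a => ?_
    change (aug X M).hom (Finsupp.single x a) = (ptw X τ f hf' M).hom (Finsupp.single x a)
    rw [aug_single, ptw_single]
    have h4 : M.ρ (τ x)⁻¹ = 1 := by
      have h5 : M.ρ (τ x)⁻¹ * M.ρ (τ x) = 1 := by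
        rw [← map_mul, inv_mul_cancel, map_one]
      rw [hM, mul_one] at h5
      exact h5
    rw [h4]
    rfl
  have h6 := congrArg (fun φ : groupHomology (perm X M) n ⟶ groupHomology M n => φ.hom w)
    (h2.trans h1.symm)
  exact h6

theorem he_zero [Nonempty X] (M : Rep.{u} k E) (hM : ∀ x, M.ρ (τ x) = 1)
    (x : groupHomology M 0) :
    (he f M 0 (good_act X τ f hf' M hM)).hom x = x := by
  have h1 : Epi (groupHomology.map (MonoidHom.id E) (aug X M) 0) := by
    have h2 := (groupHomology.mapShortComplex₂_exact (sesX_exact X M) 0)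
    infer_instance
  obtain ⟨w, rfl⟩ := (ModuleCat.epi_iff_surjective _).1 h1 x
  exact he_of_aug X τ f hf' M hM 0 w

theorem he_succ [Nonempty X] (M : Rep.{u} k E) (hM : ∀ x, M.ρ (τ x) = 1) (n : ℕ)
    (x : groupHomology M (n + 1))
    (hx : (groupHomology.δ (sesX_exact X M) (n + 1) n rfl).hom x = 0) :
    (he f M (n + 1) (good_act X τ f hf' M hM)).hom x = x := by
  have h1 := groupHomology.mapShortComplex₃_exact (sesX_exact X M) (i := n + 1) (j := n) rfl
  rw [ShortComplex.moduleCat_exact_iff] at h1
  obtain ⟨w, rfl⟩ := h1 x hx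
  exact he_of_aug X τ f hf' M hM (n + 1) w

end key

end Pool.Agent.TOR.H57
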