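import Pool.Agent.Helper57_TOR.Cr2

/-!
# Cross effects, part 3: the induction
-/

set_option autoImplicit false

namespace Pool.Agent.TOR.H57

open CategoryTheory CategoryTheory.Limits Rep Representation

universe u v

variable {k G E : Type u} [CommRing k] [Group G] [Group E]

open Classical in
/-- the map on homology induced by g, where the coefficients are restricted along f
(junk value 0 if f and g act differently on M) -/
noncomputable def hl (f g : G →* E) (M : Rep.{u} k E) (n : ℕ) :
    groupHomology (res f M) n →ₗ[k] groupHomology M n :=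
  if h : ∀ x, M.ρ (f x) = M.ρ (g x) then (hf f g M n h).hom else 0

theorem hl_eq (f g : G →* E) (M : Rep.{u} k E) (n : ℕ) (h : ∀ x, M.ρ (f x) = M.ρ (g x)) :
    hl f g M n = (hf f g M n h).hom := dif_pos h

theorem hl_delta (f g : G →* E) {S : ShortComplex (Rep.{u} k E)} (hS : S.ShortExact) (n : ℕ)
    (h1 : ∀ x, S.X₁.ρ (f x) = S.X₁.ρ (g x)) (h2 : ∀ x, S.X₂.ρ (f x) = S.X₂.ρ (g x))
    (h3 : ∀ x, S.X₃.ρ (f x) = S.X₃.ρ (g x)) (y : groupHomology (res f S.X₃) (n + 1)) :
    (groupHomology.δ hS (n + 1) n rfl).hom (hl f g S.X₃ (n + 1) y) =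
      hl f g S.X₁ n ((groupHomology.δ ((Rep.shortExact_res f).2 hS) (n + 1) n rfl).hom y) := by
  rw [hl_eq f g S.X₃ (n + 1) h3, hl_eq f g S.X₁ n h1]
  have h := hf_delta f g hS n h1 h2 h3
  exact congrArg (fun φ : groupHomology (res f S.X₃) (n + 1) ⟶ groupHomology S.X₁ n => φ.hom y) h

theorem hl_trans (f f' g : G →* E) (M : Rep.{u} k E) (n : ℕ)
    (h1 : ∀ x, M.ρ (f x) = M.ρ (f' x))
    (h2 : ∀ x, M.ρ (f' x) = M.ρ (g x)) (y : groupHomology (res f M) n) :
    hl f g M n y = hl f' g M n ((groupHomology.map (MonoidHom.id G) (A := res f M)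
      (B := res f' M) (idr f f' M h1) n).hom y) := by
  have h : ∀ x, M.ρ (f x) = M.ρ (g x) := fun x => (h1 x).trans (h2 x)
  rw [hl_eq f g M n h, hl_eq f' g M n h2, hf_trans f f' g M n h h1 h2]
  rfl

section data

variable {ι : Type v} [DecidableEq ι] (X : ι → Type u) [∀ i, MulAction E (X i)]
  [∀ i, Nonempty (X i)] (τ : ∀ i, X i → E) (f : ι → (E →* E))
  (hf' : ∀ i (e : E) (x : X i), f i e = (τ i (e • x))⁻¹ * e * τ i x)
  (ht : ∀ i j, i ≠ j → ∀ (x : X i) (y : X j), τ i x • y = y)
  (s : Finset ι → (G →* E))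
  (hs : ∀ i J, i ∉ J → ∀ g, f i (s (insert i J) g) = f i (s J g))

include hf' hs in
theorem good_s (M : Rep.{u} k E) (S J₀ J : Finset ι) (hM : ∀ i ∈ S, ∀ x, M.ρ (τ i x) = 1)
    (hd : Disjoint J₀ S) (hJ : J ⊆ S) (g : G) : M.ρ (s J₀ g) = M.ρ (s (J₀ ∪ J) g) := by
  induction J using Finset.induction_on with
  | empty => rw [Finset.union_empty]
  | insert i J hi ih =>
    have hiS : i ∈ S := hJ (Finset.mem_insert_self _ _)
    have hi0 : i ∉ J₀ := fun h => (Finset.disjoint_left.1 hd) h hiS
    have hi1 : i ∉ J₀ ∪ J := by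
      rw [Finset.mem_union]
      rintro (h | h)
      · exact hi0 h
      · exact hi h
    rw [ih fun x hx => hJ (Finset.mem_insert_of_mem hx), Finset.union_insert]
    rw [good_act (X i) (τ i) (f i) (hf' i) M (hM i hiS) (s (insert i (J₀ ∪ J)) g),
      good_act (X i) (τ i) (f i) (hf' i) M (hM i hiS) (s (J₀ ∪ J) g), hs i _ hi1 g]

omit [DecidableEq ι] [∀ i, Nonempty (X i)] in
include ht in
theorem good_perm (M : Rep.{u} k E) (i j : ι) (hij : i ≠ j) (hM : ∀ x, M.ρ (τ i x) = 1) :
    ∀ x, (perm (X j) M).ρ (τ i x) = 1 := by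
  intro x
  change permR (X j) M (τ i x) = 1
  refine Finsupp.lhom_ext fun y a => ?_
  rw [permR_single, ht i j hij x y, hM x]
  rfl

omit [DecidableEq ι] in
include ht in
theorem good_ker (M : Rep.{u} k E) (i j : ι) (hij : i ≠ j) (hM : ∀ x, M.ρ (τ i x) = 1) :
    ∀ x, (sesX (X j) M).X₁.ρ (τ i x) = 1 := by
  intro x
  refine LinearMap.ext fun a => ?_
  have h1 : Function.Injective (sesX (X j) M).f.hom :=
    (Rep.mono_iff_injective _).1 (sesX_exact (X j) M).mono_f
  apply h1
  have h2 := hom_comm_apply (sesX (X j) M).f (τ i x) a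
  refine h2.trans ?_
  have h3 := good_perm X τ ht M i j hij hM x
  change (perm (X j) M).ρ (τ i x) _ = _
  rw [h3]
  rfl

include hf' ht hs in
theorem cross_effect_abs (S : Finset ι) : ∀ (J₀ : Finset ι) (_ : Disjoint J₀ S)
    (M : Rep.{u} k E) (_ : ∀ i ∈ S, ∀ x, M.ρ (τ i x) = 1) (n : ℕ) (_ : n < S.card)
    (y : groupHomology (res (s J₀) M) n),
    ∑ J ∈ S.powerset, ((-1 : ℤ) ^ J.card) • hl (s J₀) (s (J₀ ∪ J)) M n y = 0 := by
  induction S using Finset.induction_on with
  | empty =>
    intro J₀ _ M _ n hn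
    exact absurd hn (Nat.not_lt_zero n)
  | insert i S hi ih =>
    intro J₀ hd M hM n hn y
    have hd' : Disjoint J₀ S := Finset.disjoint_of_subset_right (Finset.subset_insert i S) hd
    have hi0 : i ∉ J₀ := fun h => (Finset.disjoint_left.1 hd) h (Finset.mem_insert_self _ _)
    have hd1 : Disjoint (insert i J₀) S := by
      rw [Finset.disjoint_insert_left]
      exact ⟨hi, hd'⟩
    have hMi : ∀ x, M.ρ (τ i x) = 1 := hM i (Finset.mem_insert_self _ _)
    have hMS : ∀ j ∈ S, ∀ x, M.ρ (τ j x) = 1 := fun j hj => hM j (Finset.mem_insert_of_mem hj)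
    have agr : ∀ J ⊆ insert i S, ∀ g, M.ρ (s J₀ g) = M.ρ (s (J₀ ∪ J) g) := fun J hJ g =>
      good_s X τ f hf' s hs M (insert i S) J₀ J hM hd hJ g
    set x : groupHomology M n := ∑ J ∈ (insert i S).powerset,
      ((-1 : ℤ) ^ J.card) • hl (s J₀) (s (J₀ ∪ J)) M n y with hx
    have hsplit : ∀ (F : Finset ι → groupHomology M n), ∑ J ∈ (insert i S).powerset,
        ((-1 : ℤ) ^ J.card) • F J = ∑ J ∈ S.powerset, ((-1 : ℤ) ^ J.card) • F J -
        ∑ J ∈ S.powerset, ((-1 : ℤ) ^ J.card) • F (insert i J) := by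
      intro F
      rw [Finset.sum_powerset_insert hi, sub_eq_add_neg, ← Finset.sum_neg_distrib]
      congr 1
      refine Finset.sum_congr rfl fun J hJ => ?_
      have hiJ : i ∉ J := fun h => hi (Finset.mem_powerset.1 hJ h)
      rw [Finset.card_insert_of_notMem hiJ, pow_succ]
      simp
    -- the retraction kills x
    have hfx : (he (f i) M n (good_act (X i) (τ i) (f i) (hf' i) M hMi)).hom x = 0 := by
      rw [hx, hsplit, map_sub, map_sum, map_sum, sub_eq_zero]
      refine Finset.sum_congr rfl fun J hJ => ?_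
      have hJS := Finset.mem_powerset.1 hJ
      have hiJ : i ∉ J₀ ∪ J := by
        rw [Finset.mem_union]
        rintro (h | h)
        · exact hi0 h
        · exact hi (hJS h)
      rw [map_zsmul, map_zsmul]
      congr 1
      rw [hl_eq _ _ _ _ (agr J (hJS.trans (Finset.subset_insert i S))),
        hl_eq _ _ _ _ (agr (insert i J) (Finset.insert_subset_insert i hJS))]
      have e1 := hf_he (s J₀) (s (J₀ ∪ J)) (f i) M n
        (agr J (hJS.trans (Finset.subset_insert i S)))
        (good_act (X i) (τ i) (f i) (hf' i) M hMi)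
      have e2 := hf_he (s J₀) (s (J₀ ∪ insert i J)) (f i) M n
        (agr (insert i J) (Finset.insert_subset_insert i hJS))
        (good_act (X i) (τ i) (f i) (hf' i) M hMi)
      have e3 : (f i).comp (s (J₀ ∪ J)) = (f i).comp (s (J₀ ∪ insert i J)) := by
        ext g
        rw [MonoidHom.comp_apply, MonoidHom.comp_apply, Finset.union_insert]
        exact (hs i _ hiJ g).symm
      have e4 : ∀ (a b : G →* E) (hab : a = b) (ha : ∀ x, M.ρ (s J₀ x) = M.ρ (a x))
          (hb : ∀ x, M.ρ (s J₀ x) = M.ρ (b x)), hf (s J₀) a M n ha = hf (s J₀) b M n hb := by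
        intro a b hab
        subst hab
        intro _ _
        rfl
      have e5 := e1.trans ((e4 _ _ e3 _ _).trans e2.symm)
      exact congrArg (fun φ : groupHomology (res (s J₀) M) n ⟶ groupHomology M n => φ.hom y) e5
    rcases n with _ | n
    · rw [← he_zero (X i) (τ i) (f i) (hf' i) M hMi x]
      exact hfx
    · -- the connecting homomorphism kills x
      have hn' : n < S.card := by
        rw [Finset.card_insert_of_notMem hi] at hn
        omega
      let D : groupHomology M (n + 1) →ₗ[k] groupHomology (sesX (X i) M).X₁ n :=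
        (groupHomology.δ (sesX_exact (X i) M) (n + 1) n rfl).hom
      have hδ : D x = 0 := by
        have hker : ∀ j ∈ S, ∀ x, (sesX (X i) M).X₁.ρ (τ j x) = 1 := fun j hj =>
          good_ker X τ ht M j i (fun h => hi (h ▸ hj)) (hMS j hj)
        have hper : ∀ j ∈ S, ∀ x, (sesX (X i) M).X₂.ρ (τ j x) = 1 := fun j hj =>
          good_perm X τ ht M j i (fun h => hi (h ▸ hj)) (hMS j hj)
        rw [hx, hsplit, map_sub, map_sum, map_sum, sub_eq_zero]
        have key : ∀ (J₁ : Finset ι) (_ : Disjoint J₁ S)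
            (z : groupHomology (res (s J₁) M) (n + 1)),
            ∑ J ∈ S.powerset, D
              (((-1 : ℤ) ^ J.card) • hl (s J₁) (s (J₁ ∪ J)) M (n + 1) z) = 0 := by
          intro J₁ hJ₁ z
          rw [← ih J₁ hJ₁ (sesX (X i) M).X₁ hker n hn'
            ((groupHomology.δ ((Rep.shortExact_res (s J₁)).2 (sesX_exact (X i) M))
              (n + 1) n rfl).hom z)]
          refine Finset.sum_congr rfl fun J hJ => ?_
          have hJS := Finset.mem_powerset.1 hJ
          rw [map_zsmul]
          congr 1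
          exact hl_delta (s J₁) (s (J₁ ∪ J)) (sesX_exact (X i) M) n
            (fun g => good_s X τ f hf' s hs _ S J₁ J hker hJ₁ hJS g)
            (fun g => good_s X τ f hf' s hs _ S J₁ J hper hJ₁ hJS g)
            (fun g => good_s X τ f hf' s hs _ S J₁ J hMS hJ₁ hJS g) z
        have agi : ∀ g, M.ρ (s J₀ g) = M.ρ (s (insert i J₀) g) := by
          intro g
          have h1 := agr {i} (by simp) g
          rwa [Finset.union_comm, ← Finset.insert_eq] at h1
        rw [key J₀ hd' y]
        have h2 := key (insert i J₀) hd1 ((groupHomology.map (MonoidHom.id G)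
          (A := res (s J₀) M) (B := res (s (insert i J₀)) M) (idr _ _ M agi) (n + 1)).hom y)
        rw [← h2]
        refine Finset.sum_congr rfl fun J hJ => ?_
        have hJS := Finset.mem_powerset.1 hJ
        congr 2
        have h3 : J₀ ∪ insert i J = insert i J₀ ∪ J := by
          rw [Finset.union_insert, Finset.insert_union]
        rw [h3]
        exact (hl_trans (s J₀) (s (insert i J₀)) (s (insert i J₀ ∪ J)) M (n + 1) agi
          (fun g => good_s X τ f hf' s hs M S (insert i J₀) J hMS hd1 hJS g) y).symm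
      rw [← he_succ (X i) (τ i) (f i) (hf' i) M hMi n x hδ]
      exact hfx

end data

end Pool.Agent.TOR.H57
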