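import Pool.Agent.Helper57_TOR.Cr3

/-!
# Cross effects, part 4: the cross effect theorem for commuting subgroups
-/

set_option autoImplicit false

namespace Pool.Agent.TOR.H57

open CategoryTheory CategoryTheory.Limits Rep Representation

universe u

namespace Cross

section ext

variable {ι : Type} [DecidableEq ι] {G : Type u} [Group G] {A : ι → Type u} [∀ i, Group (A i)]
  (φ : ∀ i, G →* MulAut (A i))

/-- the product action -/
def piAut : G →* MulAut (∀ i, A i) where
  toFun g := MulEquiv.piCongrRight fun i => φ i g
  map_one' := by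
    ext a i
    change φ i 1 (a i) = a i
    rw [map_one, MulAut.one_apply]
  map_mul' g h := by
    ext a i
    change φ i (g * h) (a i) = φ i g (φ i h (a i))
    rw [map_mul, MulAut.mul_apply]

omit [DecidableEq ι] in
theorem piAut_apply (g : G) (a : ∀ i, A i) (i : ι) : piAut φ g a i = φ i g (a i) := rfl

/-- the semidirect product of the product of the A i with G -/
abbrev Ext : Type u := (∀ i, A i) ⋊[piAut φ] G

omit [DecidableEq ι] in
theorem ext_left (e e' : Ext φ) (i : ι) : (e * e').left i = e.left i * φ i e.right (e'.left i) :=
  rfl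

omit [DecidableEq ι] in
theorem ext_inv_left (e : Ext φ) (i : ι) :
    (e⁻¹).left i = φ i e.right⁻¹ (e.left i)⁻¹ := rfl

/-- the affine action of the semidirect product on a factor -/
@[reducible] def actX (i : ι) : MulAction (Ext φ) (A i) where
  smul e b := e.left i * φ i e.right b
  one_smul b := by
    change (1 : ∀ i, A i) i * φ i 1 b = b
    rw [map_one, Pi.one_apply, one_mul, MulAut.one_apply]
  mul_smul e e' b := by
    change (e * e').left i * φ i (e * e').right b = e.left i * φ i e.right (e'.left i *
      φ i e'.right b)
    rw [ext_left, SemidirectProduct.mul_right, map_mul, map_mul, MulAut.mul_apply, mul_assoc]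

/-- the transversal -/
def tau (i : ι) (b : A i) : Ext φ := SemidirectProduct.inl (Pi.mulSingle i b)

/-- the retraction killing the factor i -/
def ret (i : ι) : Ext φ →* Ext φ where
  toFun e := ⟨fun j => if j = i then 1 else e.left j, e.right⟩
  map_one' := by
    refine SemidirectProduct.ext ?_ rfl
    funext j
    change (if j = i then 1 else (1 : ∀ i, A i) j) = (1 : ∀ i, A i) j
    rw [Pi.one_apply, ite_self]
  map_mul' e e' := by
    refine SemidirectProduct.ext ?_ rfl
    funext j
    change (if j = i then 1 else e.left j * φ j e.right (e'.left j)) =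
      (if j = i then 1 else e.left j) * φ j e.right (if j = i then 1 else e'.left j)
    split_ifs
    · rw [map_one, mul_one]
    · rfl

theorem ret_left (i j : ι) (e : Ext φ) : (ret φ i e).left j = if j = i then 1 else e.left j := rfl

theorem ret_right (i : ι) (e : Ext φ) : (ret φ i e).right = e.right := rfl

theorem tau_left (i j : ι) (b : A i) : (tau φ i b).left j = (Pi.mulSingle i b : ∀ i, A i) j := rfl

theorem tau_right (i : ι) (b : A i) : (tau φ i b).right = 1 := rfl

theorem ret_eq (i : ι) (e : Ext φ) (b : A i) :
    letI := actX φ i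
    ret φ i e = (tau φ i (e • b))⁻¹ * e * tau φ i b := by
  let _ := actX φ i
  have h0 : e • b = e.left i * φ i e.right b := rfl
  refine SemidirectProduct.ext ?_ ?_
  · funext j
    rw [ret_left, ext_left, ext_left, ext_inv_left, SemidirectProduct.mul_right,
      SemidirectProduct.inv_right, tau_right, tau_left, tau_left, inv_one, map_one,
      MulAut.one_apply, one_mul, MulAut.one_apply]
    by_cases hj : j = i
    · subst hj
      rw [if_pos rfl, Pi.mulSingle_eq_same, Pi.mulSingle_eq_same, h0]
      group
    · rw [if_neg hj, Pi.mulSingle_eq_of_ne hj, Pi.mulSingle_eq_of_ne hj, map_one]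
      simp
  · rw [ret_right, SemidirectProduct.mul_right, SemidirectProduct.mul_right,
      SemidirectProduct.inv_right, tau_right, tau_right]
    simp

theorem tau_smul (i j : ι) (hij : i ≠ j) (x : A i) (y : A j) :
    letI := actX φ j
    tau φ i x • y = y := by
  let _ := actX φ j
  change (tau φ i x).left j * φ j (tau φ i x).right y = y
  rw [tau_left, tau_right, Pi.mulSingle_eq_of_ne hij.symm, map_one, one_mul, MulAut.one_apply]

variable (c : ∀ i, G → A i) (hc : ∀ i g h, c i (g * h) = c i g * φ i g (c i h))

include hc in
omit [DecidableEq ι] in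
theorem c_one (i : ι) : c i 1 = 1 := by
  have h := hc i 1 1
  rw [mul_one, map_one, MulAut.one_apply] at h
  exact (mul_eq_left.1 h.symm)

/-- the sections given by cocycles -/
def sec (J : Finset ι) : G →* Ext φ where
  toFun g := ⟨fun i => if i ∈ J then c i g else 1, g⟩
  map_one' := by
    refine SemidirectProduct.ext ?_ rfl
    funext i
    change (if i ∈ J then c i 1 else 1) = (1 : A i)
    rw [c_one φ c hc, ite_self]
  map_mul' g h := by
    refine SemidirectProduct.ext ?_ rfl
    funext i
    change (if i ∈ J then c i (g * h) else 1) = (if i ∈ J then c i g else 1) *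
      φ i g (if i ∈ J then c i h else 1)
    split_ifs
    · exact hc i g h
    · rw [map_one, mul_one]

theorem sec_left (J : Finset ι) (g : G) (i : ι) :
    (sec φ c hc J g).left i = if i ∈ J then c i g else 1 := rfl

theorem sec_right (J : Finset ι) (g : G) : (sec φ c hc J g).right = g := rfl

theorem ret_sec (i : ι) (J : Finset ι) (g : G) :
    ret φ i (sec φ c hc (insert i J) g) = ret φ i (sec φ c hc J g) := by
  refine SemidirectProduct.ext ?_ rfl
  funext j
  rw [ret_left, ret_left, sec_left, sec_left]
  split_ifs with h1 h2 h3 h4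
  · rfl
  · rfl
  · rw [Finset.mem_insert] at h2
    exact absurd (h2.resolve_left h1) h3
  · exact absurd (Finset.mem_insert_of_mem h4) h2
  · rfl

variable {k : Type u} [CommRing k]

/-- cross effect theorem for the semidirect product -/
theorem cross_effect_ext (S : Finset ι) (J₀ : Finset ι) (hd : Disjoint J₀ S)
    (M : Rep.{u} k (Ext φ)) (hM : ∀ i ∈ S, ∀ b, M.ρ (tau φ i b) = 1) (n : ℕ) (hn : n < S.card)
    (y : groupHomology (res (sec φ c hc J₀) M) n) :
    ∑ J ∈ S.powerset, ((-1 : ℤ) ^ J.card) •
      hl (sec φ c hc J₀) (sec φ c hc (J₀ ∪ J)) M n y = 0 := by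
  let _ : ∀ i, MulAction (Ext φ) (A i) := fun i => actX φ i
  exact cross_effect_abs A (tau φ) (ret φ) (fun i e b => ret_eq φ i e b)
    (fun i j hij x y => tau_smul φ i j hij x y) (sec φ c hc)
    (fun i J _ g => ret_sec φ c hc i J g) S J₀ hd M hM n hn y

end ext

end Cross

end Pool.Agent.TOR.H57
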