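import Pool.Agent.Helper57_TOR.Nu2

/-!
# Near unipotence, part 3: the far functional is unipotent
-/

set_option autoImplicit false

namespace Pool.Agent.TOR.H57

open CategoryTheory CategoryTheory.Limits Rep Representation

/-- g acts on the abelianization by x ↦ x a^(f x) -/
def Tv {F : Type} [Group F] (g : MulAut F) (a : F) (f : F →* Multiplicative ℤ) : Prop :=
  ∀ x : F, Abelianization.of (g x) = Abelianization.of (x * a ^ (Multiplicative.toAdd (f x)))

theorem Tv.cR_eq {F : Type} [Group F] {g h : MulAut F} {a : F} {f : F →* Multiplicative ℤ}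
    (hg : Tv g a f) (hh : Tv h a f) (q : ℕ) : cR (IA F) q g = cR (IA F) q h :=
  cR_congr g h (fun x => (hg x).trans (hh x).symm) q

theorem Tv_letters {X : Type} {g : MulAut (FreeGroup X)} {a : FreeGroup X}
    {f : FreeGroup X →* Multiplicative ℤ}
    (h : ∀ x, Abelianization.of (g (FreeGroup.of x)) = Abelianization.of
      (FreeGroup.of x * a ^ (Multiplicative.toAdd (f (FreeGroup.of x))))) : Tv g a f := by
  have h1 : (Abelianization.of).comp (g : FreeGroup X ≃* FreeGroup X).toMonoidHom =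
      (Abelianization.of : FreeGroup X →* _) *
        ((zpowersHom (Abelianization (FreeGroup X)) (Abelianization.of a)).comp f) := by
    refine FreeGroup.ext_hom _ _ fun x => ?_
    refine (h x).trans ?_
    rw [map_mul, map_zpow]
    rfl
  intro x
  have h2 := DFunLike.congr_fun h1 x
  refine h2.trans ?_
  rw [map_mul, map_zpow]
  rfl

theorem Tv.conj {F : Type} [Group F] {g : MulAut F} {a : F} {f : F →* Multiplicative ℤ}
    (hg : Tv g a f) (t : MulAut F) (a' : F) (ha : t a = a') (f' : F →* Multiplicative ℤ)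
    (hf : ∀ x, f (t⁻¹ x) = f' x) : Tv (t * g * t⁻¹) a' f' := by
  intro x
  rw [MulAut.mul_apply, MulAut.mul_apply]
  have h := ab_congr (t : F ≃* F).toMonoidHom (hg (t⁻¹ x))
  refine h.trans ?_
  rw [hf]
  change Abelianization.of (t (t⁻¹ x * a ^ _)) = _
  rw [map_mul, MulAut.apply_inv_self, map_zpow, ha]

theorem Tv.mul {F : Type} [Group F] {g h : MulAut F} {a : F} {f f' : F →* Multiplicative ℤ}
    (hg : Tv g a f) (hh : Tv h a f') (hfa : f a = 1) : Tv (g * h) a (f * f') := by
  intro x
  rw [MulAut.mul_apply, hg (h x)]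
  have h1 : f (h x) = f x := by
    have h2 := hh x
    have h3 := congrArg (Abelianization.lift f) h2
    rw [Abelianization.lift_apply_of, Abelianization.lift_apply_of, map_mul, map_zpow, hfa,
      one_zpow, mul_one] at h3
    exact h3
  rw [h1, map_mul, hh x, map_mul, map_zpow, map_zpow, map_mul, map_zpow, MonoidHom.mul_apply,
    toAdd_mul, zpow_add, mul_assoc, mul_comm (Abelianization.of a ^ _)]

theorem Tv.one {F : Type} [Group F] (a : F) : Tv (1 : MulAut F) a 1 := by
  intro x
  simp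

theorem Tv.pow {F : Type} [Group F] {g : MulAut F} {a : F} {f : F →* Multiplicative ℤ}
    (hg : Tv g a f) (hfa : f a = 1) (m : ℕ) : Tv (g ^ m) a (f ^ m) := by
  induction m with
  | zero => rw [pow_zero, pow_zero]; exact Tv.one a
  | succ m ih =>
    rw [pow_succ, pow_succ]
    refine Tv.mul ih hg ?_
    rw [MonoidHom.pow_apply, hfa, one_pow]

section prod

variable {X Y : Type} [DecidableEq Y]

/-- powers of w -/
def pw (w : FreeGroup X) : (Y → Multiplicative ℤ) →* (Y → FreeGroup X) where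
  toFun m y := w ^ (Multiplicative.toAdd (m y))
  map_one' := by funext y; simp
  map_mul' m m' := by funext y; simp [zpow_add]

/-- the commuting operators -/
noncomputable def opw (w : FreeGroup X) (q : ℕ) : (Y → Multiplicative ℤ) →*
    Module.End ℚ (groupHomology (Rep.trivial ℚ (IA (FreeGroup (X ⊕ Y))) ℚ) q) :=
  (cR (IA (FreeGroup (X ⊕ Y))) q).comp (rm.comp (pw w))

/-- the ring of polynomials -/
noncomputable def Psi (w : FreeGroup X) (q : ℕ) : MonoidAlgebra ℚ (Y → Multiplicative ℤ) →ₐ[ℚ]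
    Module.End ℚ (groupHomology (Rep.trivial ℚ (IA (FreeGroup (X ⊕ Y))) ℚ) q) :=
  MonoidAlgebra.lift ℚ _ _ (opw w q)

/-- the variables -/
noncomputable def XX (y : Y) : MonoidAlgebra ℚ (Y → Multiplicative ℤ) :=
  MonoidAlgebra.of ℚ _ (Pi.mulSingle y (Multiplicative.ofAdd 1))

/-- the operator of the letter y -/
noncomputable def xo (w : FreeGroup X) (q : ℕ) (y : Y) :
    Module.End ℚ (groupHomology (Rep.trivial ℚ (IA (FreeGroup (X ⊕ Y))) ℚ) q) :=
  cR (IA (FreeGroup (X ⊕ Y))) q (rm (Pi.mulSingle y w))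

theorem Psi_XX (w : FreeGroup X) (q : ℕ) (y : Y) : Psi w q (XX y) = xo w q y := by
  unfold Psi XX xo
  rw [MonoidAlgebra.lift_of]
  unfold opw
  rw [MonoidHom.comp_apply, MonoidHom.comp_apply]
  congr 2
  funext z
  change w ^ (Multiplicative.toAdd ((Pi.mulSingle y (Multiplicative.ofAdd 1) :
    Y → Multiplicative ℤ) z)) = (Pi.mulSingle y w : Y → FreeGroup X) z
  by_cases hz : z = y
  · subst hz
    rw [Pi.mulSingle_eq_same, Pi.mulSingle_eq_same]
    simp
  · rw [Pi.mulSingle_eq_of_ne hz, Pi.mulSingle_eq_of_ne hz]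
    simp

theorem Psi_prod (w : FreeGroup X) (q : ℕ) (J : Finset Y) :
    Psi w q (∏ y ∈ J, XX y) = cR (IA (FreeGroup (X ⊕ Y))) q (rm (wJ w J)) := by
  unfold XX
  rw [← map_prod]
  unfold Psi
  rw [MonoidAlgebra.lift_of]
  unfold opw
  rw [MonoidHom.comp_apply, MonoidHom.comp_apply]
  congr 2
  funext z
  change w ^ (Multiplicative.toAdd ((∏ y ∈ J, Pi.mulSingle y (Multiplicative.ofAdd 1) :
    Y → Multiplicative ℤ) z)) = wJ w J z
  rw [Finset.prod_apply]
  unfold wJ
  by_cases hz : z ∈ J
  · rw [Finset.prod_eq_single_of_mem z hz, Pi.mulSingle_eq_same, if_pos hz]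
    · simp
    · intro y _ hy
      rw [Pi.mulSingle_eq_of_ne hy.symm]
  · rw [Finset.prod_eq_one, if_neg hz]
    · simp
    · intro y hy
      have : z ≠ y := fun h => hz (h ▸ hy)
      rw [Pi.mulSingle_eq_of_ne this]

variable [Fintype Y]

theorem ff_prod (w : FreeGroup X) (q : ℕ) (hq : q < Fintype.card Y)
    (x : groupHomology (Rep.trivial ℚ (IA (FreeGroup X)) ℚ) q) :
    Psi w q (∏ y : Y, (XX y - 1)) (hn stI q x) = 0 := by
  have h1 : (∏ y : Y, (XX y - 1) : MonoidAlgebra ℚ (Y → Multiplicative ℤ)) =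
      (-1) ^ (Fintype.card Y) * ∑ J : Finset Y, (-1) ^ J.card * ∏ y ∈ J, XX y := by
    have h2 : ∀ y : Y, (XX y - 1 : MonoidAlgebra ℚ (Y → Multiplicative ℤ)) =
        (-1) * (1 + (-XX y)) := fun y => by ring
    rw [Finset.prod_congr rfl fun y _ => h2 y, Finset.prod_mul_distrib, Finset.prod_const,
      Finset.card_univ, Finset.prod_one_add, Finset.powerset_univ]
    congr 1
    refine Finset.sum_congr rfl fun J _ => ?_
    rw [Finset.prod_neg]
  rw [h1, map_mul, Module.End.mul_apply]
  have h3 : Psi w q (∑ J : Finset Y, (-1) ^ J.card * ∏ y ∈ J, XX y) (hn stI q x) = 0 := by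
    rw [← ff_rel w q hq x, map_sum, LinearMap.sum_apply]
    refine Finset.sum_congr rfl fun J _ => ?_
    rw [map_mul, Psi_prod, map_pow, map_neg, map_one]
    rcases Nat.even_or_odd J.card with h | h
    · rw [h.neg_one_pow, h.neg_one_pow, one_mul, one_smul]
    · rw [h.neg_one_pow, h.neg_one_pow, neg_one_mul, neg_one_smul, LinearMap.neg_apply]
  rw [h3, map_zero]

end prod

end Pool.Agent.TOR.H57
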