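import Pool.Agent.Helper57_TOR.Nu3

/-!
# Near unipotence, part 4: substitution
-/

set_option autoImplicit false

namespace Pool.Agent.TOR.H57

open CategoryTheory CategoryTheory.Limits Rep Representation

variable {X : Type} {n : ℕ}

/-- words in the far letters different from the first one -/
def kap : FreeGroup (Fin n) →* FreeGroup (X ⊕ Fin (n + 1)) :=
  FreeGroup.map fun i => Sum.inr i.succ

theorem kap_of (i : Fin n) : kap (X := X) (FreeGroup.of i) = FreeGroup.of (Sum.inr i.succ) :=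
  FreeGroup.map.of

/-- t₀ ↦ t₀ v -/
def thE (v : FreeGroup (Fin n)) :
    FreeGroup (X ⊕ Fin (n + 1)) →* FreeGroup (X ⊕ Fin (n + 1)) :=
  FreeGroup.lift (Sum.elim (fun x => FreeGroup.of (Sum.inl x))
    (Fin.cases (FreeGroup.of (Sum.inr 0) * kap v) (fun i => FreeGroup.of (Sum.inr i.succ))))

theorem thE_inl (v : FreeGroup (Fin n)) (x : X) :
    thE v (FreeGroup.of (Sum.inl x)) = FreeGroup.of (Sum.inl x) := FreeGroup.lift_apply_of

theorem thE_zero (v : FreeGroup (Fin n)) :
    thE (X := X) v (FreeGroup.of (Sum.inr 0)) = FreeGroup.of (Sum.inr 0) * kap v :=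
  FreeGroup.lift_apply_of

theorem thE_succ (v : FreeGroup (Fin n)) (i : Fin n) :
    thE (X := X) v (FreeGroup.of (Sum.inr i.succ)) = FreeGroup.of (Sum.inr i.succ) :=
  FreeGroup.lift_apply_of

theorem thE_kap (v u : FreeGroup (Fin n)) : thE (X := X) v (kap u) = kap u := by
  have h : (thE (X := X) v).comp kap = kap := by
    refine FreeGroup.ext_hom _ _ fun i => ?_
    change thE v (kap (FreeGroup.of i)) = kap (FreeGroup.of i)
    rw [kap_of, thE_succ]
  exact DFunLike.congr_fun h u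

theorem thE_inn (v : FreeGroup (Fin n)) (a : FreeGroup X) : thE v (inn a) = inn a := by
  have h : (thE v).comp (inn (X := X)) = inn := by
    refine FreeGroup.ext_hom _ _ fun x => ?_
    change thE v (inn (FreeGroup.of x)) = inn (FreeGroup.of x)
    rw [inn_of, thE_inl]
  exact DFunLike.congr_fun h a

/-- the automorphism t₀ ↦ t₀ v -/
def th (v : FreeGroup (Fin n)) : MulAut (FreeGroup (X ⊕ Fin (n + 1))) :=
  mkAut (thE v) (thE v⁻¹)
    (by
      rintro (x | y)
      · rw [thE_inl, thE_inl]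
      · refine Fin.cases ?_ (fun i => ?_) y
        · rw [thE_zero, map_mul, thE_zero, thE_kap, map_inv, mul_inv_cancel_right]
        · rw [thE_succ, thE_succ])
    (by
      rintro (x | y)
      · rw [thE_inl, thE_inl]
      · refine Fin.cases ?_ (fun i => ?_) y
        · rw [thE_zero, map_mul, thE_zero, thE_kap, map_inv, inv_mul_cancel_right]
        · rw [thE_succ, thE_succ])

theorem th_inl (v : FreeGroup (Fin n)) (x : X) :
    th v (FreeGroup.of (Sum.inl x)) = FreeGroup.of (Sum.inl x) := thE_inl v x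

theorem th_zero (v : FreeGroup (Fin n)) :
    th (X := X) v (FreeGroup.of (Sum.inr 0)) = FreeGroup.of (Sum.inr 0) * kap v := thE_zero v

theorem th_succ (v : FreeGroup (Fin n)) (i : Fin n) :
    th (X := X) v (FreeGroup.of (Sum.inr i.succ)) = FreeGroup.of (Sum.inr i.succ) := thE_succ v i

theorem th_inn (v : FreeGroup (Fin n)) (a : FreeGroup X) : th v (inn a) = inn a := thE_inn v a

theorem th_inv_apply (v : FreeGroup (Fin n)) (x : FreeGroup (X ⊕ Fin (n + 1))) :
    (th v)⁻¹ x = thE v⁻¹ x := rfl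

/-- th v commutes with the stabilised automorphisms -/
theorem st_kap (φ : MulAut (FreeGroup X)) (u : FreeGroup (Fin n)) :
    st φ (kap u) = kap u := by
  have h : ((st φ : FreeGroup (X ⊕ Fin (n + 1)) ≃* _).toMonoidHom).comp kap = kap := by
    refine FreeGroup.ext_hom _ _ fun i => ?_
    change st φ (kap (FreeGroup.of i)) = kap (FreeGroup.of i)
    rw [kap_of, st_inr]
  exact DFunLike.congr_fun h u

theorem th_st (v : FreeGroup (Fin n)) (φ : MulAut (FreeGroup X)) : th v * st φ = st φ * th v := by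
  refine aut_ext ?_
  rintro (x | y)
  · rw [MulAut.mul_apply, MulAut.mul_apply, th_inl, st_inl, th_inn]
  · refine Fin.cases ?_ (fun i => ?_) y
    · rw [MulAut.mul_apply, MulAut.mul_apply, st_inr, th_zero, map_mul, st_inr, st_kap]
    · rw [MulAut.mul_apply, MulAut.mul_apply, st_inr, th_succ, st_inr]

/-- exponent of a letter -/
noncomputable def ex {Z : Type} (z : Z) : FreeGroup Z →* Multiplicative ℤ := by
  classical
  exact FreeGroup.lift fun x => if x = z then Multiplicative.ofAdd 1 else 1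

theorem ex_same {Z : Type} (z : Z) : ex z (FreeGroup.of z) = Multiplicative.ofAdd 1 := by
  classical
  unfold ex
  rw [FreeGroup.lift_apply_of, if_pos rfl]

theorem ex_ne {Z : Type} (z x : Z) (h : x ≠ z) : ex z (FreeGroup.of x) = 1 := by
  classical
  unfold ex
  rw [FreeGroup.lift_apply_of, if_neg h]

theorem ex_inn (y : Fin (n + 1)) (a : FreeGroup X) : ex (Sum.inr y) (inn a) = 1 := by
  have h : (ex (Sum.inr y : X ⊕ Fin (n + 1))).comp inn = 1 := by
    refine FreeGroup.ext_hom _ _ fun x => ?_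
    change ex _ (inn (FreeGroup.of x)) = 1
    rw [inn_of, ex_ne _ _ (by simp)]
  exact DFunLike.congr_fun h a

theorem Tv_rm (y : Fin (n + 1)) (w : FreeGroup X) :
    Tv (rm (Pi.mulSingle y w)) (inn w) (ex (Sum.inr y)) := by
  refine Tv_letters ?_
  rintro (x | z)
  · rw [rm_inl, ex_ne _ _ (by simp)]
    simp
  · rw [rm_inr]
    by_cases hz : z = y
    · subst hz
      rw [Pi.mulSingle_eq_same, ex_same]
      simp
    · rw [Pi.mulSingle_eq_of_ne hz, map_one, mul_one, ex_ne _ _ (by simpa using hz)]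
      simp

/-- the word with exponents -m i -/
def vm (m : Fin n → ℕ) : FreeGroup (Fin n) := (List.ofFn fun i => FreeGroup.of i ^ (-(m i : ℤ))).prod

theorem ex_vm (m : Fin n → ℕ) (i : Fin n) : ex i (vm m) = Multiplicative.ofAdd (-(m i : ℤ)) := by
  unfold vm
  rw [map_list_prod, List.map_ofFn, List.prod_ofFn, Finset.prod_eq_single_of_mem i
    (Finset.mem_univ i)]
  · simp only [Function.comp_apply, map_zpow, ex_same]
    rw [← ofAdd_zsmul]
    simp
  · intro j _ hj
    simp only [Function.comp_apply, map_zpow]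
    rw [ex_ne i j hj, one_zpow]

theorem ex_kap (v : FreeGroup (Fin n)) (i : Fin n) :
    ex (Sum.inr i.succ : X ⊕ Fin (n + 1)) (kap v) = ex i v := by
  have h : (ex (Sum.inr i.succ : X ⊕ Fin (n + 1))).comp kap = ex i := by
    refine FreeGroup.ext_hom _ _ fun j => ?_
    change ex _ (kap (FreeGroup.of j)) = ex i (FreeGroup.of j)
    rw [kap_of]
    by_cases hj : j = i
    · subst hj; rw [ex_same, ex_same]
    · rw [ex_ne _ _ hj, ex_ne]
      simpa using hj
  exact DFunLike.congr_fun h v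

theorem ex_kap_zero (v : FreeGroup (Fin n)) :
    ex (Sum.inr 0 : X ⊕ Fin (n + 1)) (kap v) = 1 := by
  have h : (ex (Sum.inr 0 : X ⊕ Fin (n + 1))).comp kap = 1 := by
    refine FreeGroup.ext_hom _ _ fun j => ?_
    change ex _ (kap (FreeGroup.of j)) = 1
    rw [kap_of, ex_ne]
    simp
  exact DFunLike.congr_fun h v

theorem ex_th_succ (m : Fin n → ℕ) (i : Fin n) (x : FreeGroup (X ⊕ Fin (n + 1))) :
    ex (Sum.inr i.succ) ((th (vm m))⁻¹ x) =
      (ex (Sum.inr i.succ) * (ex (Sum.inr 0)) ^ (m i) :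
        FreeGroup (X ⊕ Fin (n + 1)) →* Multiplicative ℤ) x := by
  have h : (ex (Sum.inr i.succ : X ⊕ Fin (n + 1))).comp (thE (vm m)⁻¹) =
      ex (Sum.inr i.succ) * (ex (Sum.inr 0)) ^ (m i) := by
    refine FreeGroup.ext_hom _ _ ?_
    rintro (x | y)
    · rw [MonoidHom.comp_apply, thE_inl, MonoidHom.mul_apply, MonoidHom.pow_apply,
        ex_ne _ _ (by simp), ex_ne _ _ (by simp), one_pow, one_mul]
    · refine Fin.cases ?_ (fun j => ?_) y
      · rw [MonoidHom.comp_apply, thE_zero, MonoidHom.mul_apply, MonoidHom.pow_apply, map_mul,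
          ex_kap, map_inv, ex_vm, ex_same]
        rw [← ofAdd_neg, neg_neg, ← ofAdd_nsmul]
        simp
      · rw [MonoidHom.comp_apply, thE_succ, MonoidHom.mul_apply, MonoidHom.pow_apply,
          ex_ne (Sum.inr 0 : X ⊕ Fin (n + 1)) (Sum.inr j.succ) (by simp), one_pow, mul_one]
  exact DFunLike.congr_fun h x

theorem ex_th_zero (v : FreeGroup (Fin n)) (x : FreeGroup (X ⊕ Fin (n + 1))) :
    ex (Sum.inr 0) ((th v)⁻¹ x) = ex (Sum.inr 0) x := by
  have h : (ex (Sum.inr 0 : X ⊕ Fin (n + 1))).comp (thE v⁻¹) = ex (Sum.inr 0) := by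
    refine FreeGroup.ext_hom _ _ ?_
    rintro (x | y)
    · rw [MonoidHom.comp_apply, thE_inl]
    · refine Fin.cases ?_ (fun j => ?_) y
      · rw [MonoidHom.comp_apply, thE_zero, map_mul, ex_kap_zero, mul_one]
      · rw [MonoidHom.comp_apply, thE_succ]
  exact DFunLike.congr_fun h x

theorem rep_conj {G M : Type*} [Group G] [Monoid M] (ρ : G →* M) (t g : G) (c : M)
    (h : ρ (t * g * t⁻¹) = c) : ρ t * ρ g = c * ρ t := by
  rw [← h, ← map_mul, ← map_mul, inv_mul_cancel_right]

/-- conjugation of the operators by th -/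
theorem xo_conj_succ (w : FreeGroup X) (q : ℕ) (m : Fin n → ℕ) (i : Fin n) :
    cR (IA (FreeGroup (X ⊕ Fin (n + 1)))) q (th (vm m)) * xo w q i.succ =
      (xo w q i.succ * xo w q 0 ^ (m i)) *
        cR (IA (FreeGroup (X ⊕ Fin (n + 1)))) q (th (vm m)) := by
  have h1 : Tv (th (vm m) * rm (Pi.mulSingle i.succ w) * (th (vm m))⁻¹) (inn w)
      (ex (Sum.inr i.succ) * (ex (Sum.inr 0)) ^ (m i)) :=
    (Tv_rm i.succ w).conj (th (vm m)) (inn w) (th_inn _ _) _ (ex_th_succ m i)
  have h2 : Tv (rm (Pi.mulSingle i.succ w) * rm (Pi.mulSingle 0 w) ^ (m i)) (inn w)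
      (ex (Sum.inr i.succ) * (ex (Sum.inr 0)) ^ (m i)) :=
    (Tv_rm i.succ w).mul ((Tv_rm 0 w).pow (ex_inn 0 w) (m i)) (ex_inn i.succ w)
  refine rep_conj _ _ _ _ ((h1.cR_eq h2 q).trans ?_)
  rw [map_mul, map_pow]
  rfl

theorem xo_conj_zero (w : FreeGroup X) (q : ℕ) (v : FreeGroup (Fin n)) :
    cR (IA (FreeGroup (X ⊕ Fin (n + 1)))) q (th v) * xo w q 0 =
      xo w q 0 * cR (IA (FreeGroup (X ⊕ Fin (n + 1)))) q (th v) := by
  have h1 : Tv (th v * rm (Pi.mulSingle 0 w) * (th v)⁻¹) (inn w)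
      (ex (Sum.inr 0 : X ⊕ Fin (n + 1))) :=
    (Tv_rm 0 w).conj (th v) (inn w) (th_inn _ _) _ (ex_th_zero v)
  exact rep_conj _ _ _ _ (h1.cR_eq (Tv_rm 0 w) q)

theorem list_conj {A : Type} [Ring A] (T : A) (k : ℕ) (a b : Fin k → A)
    (h : ∀ i, T * a i = b i * T) : T * (List.ofFn a).prod = (List.ofFn b).prod * T := by
  induction k with
  | zero => simp
  | succ k ih =>
    rw [List.ofFn_succ, List.ofFn_succ, List.prod_cons, List.prod_cons, ← mul_assoc, h 0,
      mul_assoc, ih _ _ (fun i => h i.succ), mul_assoc]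

/-- abstract substitution -/
theorem sub_abs {V : Type} [AddCommGroup V] [Module ℚ V] (a : Fin (n + 1) → Module.End ℚ V)
    (hc : ∀ i j, Commute (a i) (a j)) (hi : ∀ i, Function.Injective (a i)) (v : V)
    (h0 : ((List.ofFn fun i : Fin n => a i.succ - 1).prod * (a 0 - 1)) v = 0)
    (hT : ∀ m : Fin n → ℕ, ∃ T : Module.End ℚ V, T v = v ∧ T * a 0 = a 0 * T ∧
      ∀ i : Fin n, T * a i.succ = (a i.succ * a 0 ^ m i) * T) :
    ((a 0 - 1) ^ (n + 1)) v = 0 := by
  refine Pool.Agent.TOR.H56.sub_pt (a 0) n (fun i => a i.succ)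
    (fun i => hc _ _) (fun i => hi _) v ?_
  intro m _
  obtain ⟨T, hfix, h2, h3⟩ := hT m
  have h1 := list_conj T n (fun i => a i.succ - 1) (fun i => a i.succ * a 0 ^ m i - 1) (fun i => by
    rw [mul_sub, sub_mul, h3, mul_one, one_mul])
  have h2' : T * (a 0 - 1) = (a 0 - 1) * T := by
    rw [mul_sub, sub_mul, h2, mul_one, one_mul]
  have h4 : ((List.ofFn fun i : Fin n => a i.succ * a 0 ^ m i - 1).prod * (a 0 - 1)) * T =
      T * ((List.ofFn fun i : Fin n => a i.succ - 1).prod * (a 0 - 1)) := by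
    rw [← mul_assoc T, h1, mul_assoc, ← h2', ← mul_assoc]
  have h5 := LinearMap.congr_fun h4 v
  rw [Module.End.mul_apply _ T, Module.End.mul_apply T, hfix, h0, map_zero] at h5
  exact h5

/-- the far functional acts unipotently on near classes -/
theorem ff_unip (w : FreeGroup X) (q : ℕ) (hq : q < n + 1)
    (x : groupHomology (Rep.trivial ℚ (IA (FreeGroup X)) ℚ) q) :
    ((xo w q (0 : Fin (n + 1)) - 1) ^ (n + 1)) (hn stI q x) = 0 := by
  refine sub_abs (fun y => xo w q y) ?_ ?_ (hn stI q x) ?_ ?_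
  · intro y z
    rw [← Psi_XX, ← Psi_XX]
    unfold Commute SemiconjBy
    rw [← map_mul, ← map_mul, mul_comm]
  · intro i
    have h1 : cR (IA (FreeGroup (X ⊕ Fin (n + 1)))) q ((rm (Pi.mulSingle i w))⁻¹) *
        xo w q i = 1 := by
      unfold xo
      rw [← map_mul, inv_mul_cancel, map_one]
    intro a b hab
    have h2 := congrArg (cR (IA (FreeGroup (X ⊕ Fin (n + 1)))) q
      ((rm (Pi.mulSingle i w))⁻¹)) hab
    beta_reduce at h2
    rw [← Module.End.mul_apply, ← Module.End.mul_apply, h1] at h2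
    exact h2
  · have h1 := ff_prod (Y := Fin (n + 1)) w q (by rw [Fintype.card_fin]; exact hq) x
    rw [Fin.prod_univ_succ, mul_comm, map_mul, ← List.prod_ofFn, map_list_prod,
      List.map_ofFn, map_sub, map_one, Psi_XX] at h1
    have h2 : (⇑(Psi (X := X) w q) ∘ fun i : Fin n => XX i.succ - 1) =
        fun i : Fin n => xo w q i.succ - 1 := by
      funext i
      rw [Function.comp_apply, map_sub, map_one, Psi_XX]
    rw [h2] at h1
    exact h1
  · intro m
    refine ⟨cR (IA (FreeGroup (X ⊕ Fin (n + 1)))) q (th (vm m)), ?_, xo_conj_zero w q _,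
      fun i => xo_conj_succ w q m i⟩
    refine cR_fix _ _ stI (th (vm m)) (fun φ => ?_) q x
    rw [stI_coe]
    exact th_st _ _

end Pool.Agent.TOR.H57
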