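import Pool.Agent.Helper57_TOR.Nu4
import Pool.Agent.Helper79_TOR.Stmts

/-!
# Near unipotence, part 5: the far vector and the theorem
-/

set_option autoImplicit false

namespace Pool.Agent.TOR.H57

open CategoryTheory CategoryTheory.Limits Rep Representation Pool.Agent.TST

/-! ## additive notation for the abelianization -/

section alpha

variable {F : Type} [Group F]

/-- the class in the abelianization, written additively -/
def alp (x : F) : Additive (Abelianization F) := Additive.ofMul (Abelianization.of x)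

theorem alp_eq {x y : F} : alp x = alp y ↔ Abelianization.of x = Abelianization.of y := Iff.rfl

theorem alp_mul (x y : F) : alp (x * y) = alp x + alp y := by
  unfold alp; rw [map_mul, ofMul_mul]

theorem alp_one : alp (1 : F) = 0 := by
  unfold alp; rw [map_one, ofMul_one]

theorem alp_zpow (x : F) (n : ℤ) : alp (x ^ n) = n • alp x := by
  unfold alp; rw [map_zpow, ofMul_zpow]

theorem Tv_iff {g : MulAut F} {a : F} {f : F →* Multiplicative ℤ} :
    Tv g a f ↔ ∀ x, alp (g x) = alp x + (Multiplicative.toAdd (f x)) • alp a := by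
  constructor
  · intro h x
    rw [← alp_zpow, ← alp_mul]
    exact h x
  · intro h x
    have h1 := h x
    rw [← alp_zpow, ← alp_mul] at h1
    exact h1

/-- homomorphisms to ℤ factor through the abelianization -/
theorem hom_ab (f : F →* Multiplicative ℤ) {x y : F}
    (h : Abelianization.of x = Abelianization.of y) : f x = f y := by
  have h3 := congrArg (Abelianization.lift f) h
  rwa [Abelianization.lift_apply_of, Abelianization.lift_apply_of] at h3

theorem Tv.hom {h : MulAut F} {b : F} {f' : F →* Multiplicative ℤ} (hh : Tv h b f')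
    (f : F →* Multiplicative ℤ) (x : F) :
    Multiplicative.toAdd (f (h x)) = Multiplicative.toAdd (f x) +
      Multiplicative.toAdd (f' x) * Multiplicative.toAdd (f b) := by
  rw [hom_ab f (hh x), map_mul, map_zpow, toAdd_mul, toAdd_zpow, smul_eq_mul]

/-- the three relations of the Heisenberg group -/
theorem heis_rel {A B T : MulAut F} {w t : F} {e f : F →* Multiplicative ℤ} (hA : Tv A w e)
    (hB : Tv B t f) (hT : Tv T w f) (het : Multiplicative.toAdd (e t) = 1)
    (hew : Multiplicative.toAdd (e w) = 0) (hft : Multiplicative.toAdd (f t) = 0)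
    (hfw : Multiplicative.toAdd (f w) = 0) (q : ℕ) :
    Commute (cR (IA F) q T) (cR (IA F) q A) ∧ Commute (cR (IA F) q T) (cR (IA F) q B) ∧
      cR (IA F) q A * cR (IA F) q B = cR (IA F) q T * cR (IA F) q B * cR (IA F) q A := by
  refine ⟨?_, ?_, ?_⟩
  · unfold Commute SemiconjBy
    rw [← map_mul, ← map_mul]
    refine cR_congr _ _ (fun x => alp_eq.1 ?_) q
    rw [MulAut.mul_apply, MulAut.mul_apply, Tv_iff.1 hT, Tv_iff.1 hA, Tv_iff.1 hA, Tv_iff.1 hT,
      hA.hom, hT.hom, hfw, hew]
    simp only [mul_zero, add_zero]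
    abel
  · unfold Commute SemiconjBy
    rw [← map_mul, ← map_mul]
    refine cR_congr _ _ (fun x => alp_eq.1 ?_) q
    rw [MulAut.mul_apply, MulAut.mul_apply, Tv_iff.1 hT, Tv_iff.1 hB, Tv_iff.1 hB, Tv_iff.1 hT,
      hB.hom, hT.hom, hfw, hft]
    simp only [mul_zero, add_zero]
    abel
  · rw [← map_mul, ← map_mul, ← map_mul]
    refine cR_congr _ _ (fun x => alp_eq.1 ?_) q
    rw [MulAut.mul_apply, MulAut.mul_apply, MulAut.mul_apply, Tv_iff.1 hA, Tv_iff.1 hB,
      Tv_iff.1 hT, Tv_iff.1 hB, Tv_iff.1 hA, hB.hom, hB.hom, hA.hom, het, hft, hfw]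
    simp only [mul_zero, add_zero, mul_one, add_smul]
    abel

end alpha

/-! ## the left multiplications by powers of the far letter -/

section lmul

variable {X : Type} {n : ℕ}

/-- x ↦ x t₀^(m x) -/
def lmE (m : X → Multiplicative ℤ) : FreeGroup (X ⊕ Fin (n + 1)) →* FreeGroup (X ⊕ Fin (n + 1)) :=
  FreeGroup.lift (Sum.elim (fun x => FreeGroup.of (Sum.inl x) *
    FreeGroup.of (Sum.inr 0) ^ (Multiplicative.toAdd (m x))) (fun y => FreeGroup.of (Sum.inr y)))

theorem lmE_inl (m : X → Multiplicative ℤ) (x : X) :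
    lmE (n := n) m (FreeGroup.of (Sum.inl x)) = FreeGroup.of (Sum.inl x) *
      FreeGroup.of (Sum.inr 0) ^ (Multiplicative.toAdd (m x)) := FreeGroup.lift_apply_of

theorem lmE_inr (m : X → Multiplicative ℤ) (y : Fin (n + 1)) :
    lmE m (FreeGroup.of (Sum.inr y)) = FreeGroup.of (Sum.inr y) := FreeGroup.lift_apply_of

/-- the automorphisms x ↦ x t₀^(m x) -/
def lm : (X → Multiplicative ℤ) →* MulAut (FreeGroup (X ⊕ Fin (n + 1))) where
  toFun m := mkAut (lmE m) (lmE m⁻¹)
    (by
      rintro (x | y)
      · rw [lmE_inl, map_mul, lmE_inl, map_zpow, lmE_inr, Pi.inv_apply, toAdd_inv, zpow_neg,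
          mul_inv_cancel_right]
      · rw [lmE_inr, lmE_inr])
    (by
      rintro (x | y)
      · rw [lmE_inl, map_mul, lmE_inl, map_zpow, lmE_inr, Pi.inv_apply, toAdd_inv, zpow_neg,
          inv_mul_cancel_right]
      · rw [lmE_inr, lmE_inr])
  map_one' := by
    refine aut_ext ?_
    rintro (x | y)
    · rw [mkAut_apply, lmE_inl]
      simp
    · rw [mkAut_apply, lmE_inr]; rfl
  map_mul' a b := by
    refine aut_ext ?_
    rintro (x | y)
    · rw [MulAut.mul_apply, mkAut_apply, mkAut_apply, mkAut_apply, lmE_inl, lmE_inl, map_mul,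
        lmE_inl, map_zpow, lmE_inr, Pi.mul_apply, toAdd_mul, zpow_add, mul_assoc]
    · rw [MulAut.mul_apply, mkAut_apply, mkAut_apply, mkAut_apply, lmE_inr, lmE_inr, lmE_inr]

theorem lm_inl (m : X → Multiplicative ℤ) (x : X) :
    lm (n := n) m (FreeGroup.of (Sum.inl x)) = FreeGroup.of (Sum.inl x) *
      FreeGroup.of (Sum.inr 0) ^ (Multiplicative.toAdd (m x)) := lmE_inl m x

theorem lm_inr (m : X → Multiplicative ℤ) (y : Fin (n + 1)) :
    lm m (FreeGroup.of (Sum.inr y)) = FreeGroup.of (Sum.inr y) := lmE_inr m y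

/-- extension of a functional by zero -/
def fext (m : X → Multiplicative ℤ) : FreeGroup (X ⊕ Fin (n + 1)) →* Multiplicative ℤ :=
  FreeGroup.lift (Sum.elim m (fun _ => 1))

theorem fext_inl (m : X → Multiplicative ℤ) (x : X) :
    fext (n := n) m (FreeGroup.of (Sum.inl x)) = m x := FreeGroup.lift_apply_of

theorem fext_inr (m : X → Multiplicative ℤ) (y : Fin (n + 1)) :
    fext m (FreeGroup.of (Sum.inr y)) = 1 := FreeGroup.lift_apply_of

theorem fext_inn (f : FreeGroup X →* Multiplicative ℤ) (a : FreeGroup X) :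
    fext (n := n) (fun x => f (FreeGroup.of x)) (inn a) = f a := by
  have h : (fext (n := n) (fun x => f (FreeGroup.of x))).comp inn = f := by
    refine FreeGroup.ext_hom _ _ fun x => ?_
    change fext _ (inn (FreeGroup.of x)) = f (FreeGroup.of x)
    rw [inn_of, fext_inl]
  exact DFunLike.congr_fun h a

theorem Tv_lm (m : X → Multiplicative ℤ) : Tv (lm (n := n) m) (FreeGroup.of (Sum.inr 0))
    (fext m) := by
  refine Tv_letters ?_
  rintro (x | y)
  · rw [lm_inl, fext_inl]
  · rw [lm_inr, fext_inr]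
    simp

end lmul

end Pool.Agent.TOR.H57
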