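import Pool.Agent.Helper57_TOR.Nu5

/-!
# Near unipotence, part 6: the theorem NUc
-/

set_option autoImplicit false

namespace Pool.Agent.TOR.H57

open CategoryTheory CategoryTheory.Limits Rep Representation Pool.Agent.TST

section nat

variable {G G' : Type} [Group G] [Group G'] (N : Subgroup G) [N.Normal] (N' : Subgroup G')
  [N'.Normal]

theorem cR_nat_pow (f : G →* G') (ν : N →* N') (hν : ∀ x : N, ((ν x : N') : G') = f x) (g : G)
    (i m : ℕ) : ∀ x : groupHomology (Rep.trivial ℚ N ℚ) i,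
    ((cR N' i (f g) - 1) ^ m) (hn ν i x) = hn ν i (((cR N i g - 1) ^ m) x) := by
  induction m with
  | zero => intro y; rfl
  | succ m ih =>
    intro y
    rw [pow_succ, pow_succ, Module.End.mul_apply, Module.End.mul_apply, ← ih]
    congr 1
    rw [LinearMap.sub_apply, LinearMap.sub_apply, map_sub, cR_nat N N' f ν hν g i y]
    rfl

end nat

section fv

variable {X : Type} {n : ℕ}

/-- the embedding of the letters X, t₀ -/
def eN : X ⊕ Fin 1 ↪ X ⊕ Fin (n + 1) where
  toFun := Sum.map id (fun _ => 0)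
  inj' := by
    rintro (x | y) (x' | y') h
    · simpa using h
    · simp at h
    · simp at h
    · rw [Subsingleton.elim y y']

theorem eN_inl (x : X) : eN (n := n) (Sum.inl x) = Sum.inl x := rfl

theorem eN_inr (j : Fin 1) : eN (X := X) (n := n) (Sum.inr j) = Sum.inr 0 := rfl

theorem expo_IA {Z : Type} (z : Z) (φ : MulAut (FreeGroup Z)) (h : φ ∈ IA (FreeGroup Z))
    (g : FreeGroup Z) : expo z (φ g) = expo z g := hom_ab _ (h g)

/-- IA(F₀) → N(F₀ * ⟨z⟩, z) -/
def nu0 : IA (FreeGroup X) →* Nz (Sum.inr 0 : X ⊕ Fin 1) where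
  toFun φ := ⟨⟨st (φ : MulAut (FreeGroup X)), st_inr _ _, fun y _ g =>
      expo_IA y _ (st_mem _ φ.2) g⟩, fun g => expo_IA _ _ (st_mem _ φ.2) g⟩
  map_one' := by
    refine Subtype.ext (Subtype.ext ?_)
    exact map_one st
  map_mul' φ ψ := by
    refine Subtype.ext (Subtype.ext ?_)
    exact map_mul st (φ : MulAut (FreeGroup X)) ψ

theorem nu0_coe (φ : IA (FreeGroup X)) : ((nu0 φ : Gp (Sum.inr 0 : X ⊕ Fin 1)) :
    MulAut (FreeGroup (X ⊕ Fin 1))) = st (φ : MulAut (FreeGroup X)) := rfl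

/-- exponents determine the class in the abelianization -/
theorem ab_of_expo {Z : Type} [Finite Z] {a b : FreeGroup Z} (h : ∀ z, expo z a = expo z b) :
    Abelianization.of a = Abelianization.of b := by
  classical
  have _ := Fintype.ofFinite Z
  have key : (Abelianization.of : FreeGroup Z →* _) =
      ∏ z : Z, (zpowersHom (Abelianization (FreeGroup Z))
        (Abelianization.of (FreeGroup.of z))).comp (expo z) := by
    refine FreeGroup.ext_hom _ _ fun x => ?_
    rw [MonoidHom.finsetProd_apply, Finset.prod_eq_single_of_mem x (Finset.mem_univ x)]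
    · rw [MonoidHom.comp_apply, expo, FreeGroup.lift_apply_of, if_pos rfl]
      simp
    · intro z _ hz
      rw [MonoidHom.comp_apply, expo, FreeGroup.lift_apply_of, if_neg hz.symm, map_one]
  rw [key, MonoidHom.finsetProd_apply, MonoidHom.finsetProd_apply]
  refine Finset.prod_congr rfl fun z _ => ?_
  rw [MonoidHom.comp_apply, MonoidHom.comp_apply, h z]

/-- N(F, z) → IA(F) -/
def nuI {Z : Type} [Finite Z] (z : Z) : Nz z →* IA (FreeGroup Z) where
  toFun φ := ⟨((φ : Gp z) : MulAut (FreeGroup Z)), fun g => ab_of_expo fun y => by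
    by_cases hy : y = z
    · subst hy
      exact φ.2 g
    · exact (φ : Gp z).2.2 y hy g⟩
  map_one' := rfl
  map_mul' _ _ := rfl

theorem nuI_coe {Z : Type} [Finite Z] (z : Z) (φ : Nz z) :
    ((nuI z φ : IA (FreeGroup Z)) : MulAut (FreeGroup Z)) = ((φ : Gp z) : MulAut _) := rfl

theorem stI_factor [Finite X] (φ : IA (FreeGroup X)) :
    (stI φ : IA (FreeGroup (X ⊕ Fin (n + 1)))) =
      nuI (eN (Sum.inr 0)) (upN eN (Sum.inr 0) (nu0 φ)) := by
  refine Subtype.ext ?_
  rw [stI_coe, nuI_coe, upN_coe, upG_coe, nu0_coe]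
  refine aut_ext ?_
  have hinn : ∀ a : FreeGroup X, FreeGroup.map (eN (n := n)) (inn a) = inn a := by
    intro a
    have h : (FreeGroup.map (eN (n := n))).comp inn = inn (X := X) := by
      refine FreeGroup.ext_hom _ _ fun x => ?_
      change FreeGroup.map eN (inn (FreeGroup.of x)) = inn (FreeGroup.of x)
      rw [inn_of, inn_of, mof]
      rfl
    exact DFunLike.congr_fun h a
  rintro (x | y)
  · have h1 : (FreeGroup.of (Sum.inl x : X ⊕ Fin (n + 1))) =
        FreeGroup.map (eN (n := n)) (FreeGroup.of (Sum.inl x)) := by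
      rw [mof]; rfl
    rw [h1, upE_map, ← h1, st_inl, st_inl, hinn]
  · rw [st_inr]
    by_cases hy : y = 0
    · subst hy
      have h1 : (FreeGroup.of (Sum.inr 0 : X ⊕ Fin (n + 1))) =
          FreeGroup.map (eN (n := n)) (FreeGroup.of (Sum.inr 0)) := by
        rw [mof]; rfl
      rw [h1, upE_map, st_inr]
    · rw [upE_new]
      rintro (x | j) h
      · rw [eN_inl] at h
        exact absurd h (by simp)
      · rw [eN_inr, Sum.inr.injEq] at h
        exact hy h.symm

variable [Fintype X]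

/-- far vector, one letter -/
theorem fv_letter (hT : T2L) (q : ℕ) (hn' : (q + 1) * (2 * q + 1) ≤ n) [DecidableEq X] (i : X)
    (x : groupHomology (Rep.trivial ℚ (IA (FreeGroup X)) ℚ) q) :
    ∃ m : ℕ, ((cR (IA (FreeGroup (X ⊕ Fin (n + 1)))) q
      (lm (Pi.mulSingle i (Multiplicative.ofAdd 1))) - 1) ^ m) (hn stI q x) = 0 := by
  have hmem : lm (n := n) (Pi.mulSingle i (Multiplicative.ofAdd 1)) ∈
      Gp (eN (n := n) (Sum.inr 0 : X ⊕ Fin 1)) := by
    refine ⟨lm_inr _ _, ?_⟩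
    intro y hy g
    have h : (expo y).comp
        (lm (X := X) (n := n) (Pi.mulSingle i (Multiplicative.ofAdd 1)) :
          FreeGroup (X ⊕ Fin (n + 1)) ≃* _).toMonoidHom = expo y := by
      refine FreeGroup.ext_hom _ _ ?_
      rintro (x | j)
      · change expo y (lm _ (FreeGroup.of (Sum.inl x))) = _
        have h2 : expo y (FreeGroup.of (Sum.inr 0 : X ⊕ Fin (n + 1))) = 1 := by
          rw [expo, FreeGroup.lift_apply_of, if_neg]
          intro h; exact hy h.symm
        rw [lm_inl, map_mul, map_zpow, h2, one_zpow, mul_one]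
      · change expo y (lm (Pi.mulSingle i (Multiplicative.ofAdd 1))
          (FreeGroup.of (Sum.inr j))) = _
        rw [lm_inr]
    exact DFunLike.congr_fun h g
  let τ : Gp (eN (n := n) (Sum.inr 0 : X ⊕ Fin 1)) := ⟨_, hmem⟩
  obtain ⟨m, hm⟩ := hT q (X ⊕ Fin 1) (X ⊕ Fin (n + 1)) eN (Sum.inr 0) (Sum.inl i) (by simp) (by
      simp only [Fintype.card_sum, Fintype.card_fin]
      omega) τ (by
      change lm _ (FreeGroup.of (Sum.inl i)) = _
      rw [lm_inl, Pi.mulSingle_eq_same, toAdd_ofAdd, zpow_one]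
      rfl) (by
      rintro (x | j) hb
      · change lm _ (FreeGroup.of (Sum.inl x)) = _
        have hx : x ≠ i := fun h => hb (by rw [h]; rfl)
        rw [lm_inl, Pi.mulSingle_eq_of_ne hx, toAdd_one, zpow_zero, mul_one]
      · exact lm_inr _ _)
    (𝟙 (Rep.trivial ℚ (Nz (Sum.inr 0 : X ⊕ Fin 1)) ℚ)) (fun r => rfl) (hn nu0 q x)
  refine ⟨m, ?_⟩
  have h1 : hn stI q x = hn (nuI (eN (n := n) (Sum.inr 0 : X ⊕ Fin 1))) q
      (hn (upN eN (Sum.inr 0)) q (hn nu0 q x)) := by
    rw [← hn_comp, ← hn_comp]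
    exact congrFun (congrArg DFunLike.coe (hn_congr _ _ (fun φ => stI_factor φ) q)) x
  have h2 := cR_nat_pow (Nz (eN (n := n) (Sum.inr 0 : X ⊕ Fin 1)))
    (IA (FreeGroup (X ⊕ Fin (n + 1)))) (Gp (eN (n := n) (Sum.inr 0 : X ⊕ Fin 1))).subtype
    (nuI (eN (n := n) (Sum.inr 0 : X ⊕ Fin 1))) (fun x => rfl) τ q m
    (hn (upN eN (Sum.inr 0)) q (hn nu0 q x))
  rw [h1]
  refine h2.trans ?_
  refine (congrArg _ hm).trans ?_
  exact map_zero _

/-- far vector, any functional -/
theorem fv_unip (hT : T2L) (q : ℕ) (hn' : (q + 1) * (2 * q + 1) ≤ n) (m : X → Multiplicative ℤ)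
    (x : groupHomology (Rep.trivial ℚ (IA (FreeGroup X)) ℚ) q) :
    ∃ a : ℕ, ((cR (IA (FreeGroup (X ⊕ Fin (n + 1)))) q (lm m) - 1) ^ a) (hn stI q x) = 0 := by
  classical
  let ρ : (X → Multiplicative ℤ) →*
      Module.End ℚ (groupHomology (Rep.trivial ℚ (IA (FreeGroup (X ⊕ Fin (n + 1)))) ℚ) q) :=
    (cR (IA (FreeGroup (X ⊕ Fin (n + 1)))) q).comp lm
  have hc : ∀ a b, Commute (ρ a) (ρ b) := by
    intro a b
    unfold Commute SemiconjBy
    rw [← map_mul, ← map_mul, mul_comm]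
  have hc1 : ∀ a b, Commute (ρ a - 1) (ρ b) := fun a b =>
    (hc a b).sub_left (Commute.one_left _)
  let S : Subgroup (X → Multiplicative ℤ) :=
    { carrier := {m | Pool.Agent.TOR.H56.Kl (ρ m - 1) (hn stI q x)}
      one_mem' := by
        refine ⟨1, ?_⟩
        rw [map_one, sub_self, pow_one]
        rfl
      mul_mem' := by
        intro a b ha hb
        change Pool.Agent.TOR.H56.Kl (ρ (a * b) - 1) (hn stI q x)
        have h1 : ρ (a * b) - 1 = (ρ a - 1) * ρ b + (ρ b - 1) := by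
          rw [map_mul]; noncomm_ring
        rw [h1]
        refine Pool.Agent.TOR.H56.Kl.add ?_ (Pool.Agent.TOR.H56.Kl.mul_left (hc1 a b) ha) hb
        exact (((hc1 b a).symm.sub_left (Commute.one_left _)).mul_left
          ((hc1 b b).symm))
      inv_mem' := by
        intro a ha
        change Pool.Agent.TOR.H56.Kl (ρ a⁻¹ - 1) (hn stI q x)
        have h1 : ρ a⁻¹ - 1 = -(ρ a⁻¹ * (ρ a - 1)) := by
          rw [mul_sub, ← map_mul, inv_mul_cancel, map_one, mul_one, neg_sub]
        rw [h1]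
        exact Pool.Agent.TOR.H56.Kl.neg (Pool.Agent.TOR.H56.Kl.mul_right (hc1 a a⁻¹) ha) }
  have hS : ∀ i : X, (Pi.mulSingle i (Multiplicative.ofAdd (1 : ℤ)) :
      X → Multiplicative ℤ) ∈ S := fun i => fv_letter hT q hn' i x
  have hm : m ∈ S := by
    have h1 : m = ∏ i, (Pi.mulSingle i (Multiplicative.ofAdd (1 : ℤ)) : X → Multiplicative ℤ) ^
        (Multiplicative.toAdd (m i)) := by
      funext j
      rw [Finset.prod_apply, Finset.prod_eq_single_of_mem j (Finset.mem_univ j)]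
      · rw [Pi.pow_apply, Pi.mulSingle_eq_same, ← ofAdd_zsmul]
        simp
      · intro i _ hi
        rw [Pi.pow_apply, Pi.mulSingle_eq_of_ne hi.symm, one_zpow]
    rw [h1]
    exact S.prod_mem fun i _ => S.zpow_mem (hS i) _
  exact hm

omit [Fintype X] in
theorem lm_inj (q : ℕ) (w : FreeGroup X) : Function.Injective (xo (X := X) w q (0 : Fin (n + 1))) := by
  have h1 : cR (IA (FreeGroup (X ⊕ Fin (n + 1)))) q ((rm (Pi.mulSingle 0 w))⁻¹) *
      xo w q (0 : Fin (n + 1)) = 1 := by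
    unfold xo
    rw [← map_mul, inv_mul_cancel, map_one]
  intro a b hab
  have h2 := congrArg (cR (IA (FreeGroup (X ⊕ Fin (n + 1)))) q
    ((rm (Pi.mulSingle 0 w))⁻¹)) hab
  rw [← Module.End.mul_apply, ← Module.End.mul_apply, h1] at h2
  exact h2

/-- NUc(q): near transvections act unipotently on near classes -/
theorem nuc (hT2 : T2L) (q : ℕ) (hn' : (q + 1) * (2 * q + 1) ≤ n) (w : FreeGroup X)
    (f : FreeGroup X →* Multiplicative ℤ) (hfw : f w = 1)
    (T : MulAut (FreeGroup (X ⊕ Fin (n + 1))))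
    (hT : Tv T (inn w) (fext fun x => f (FreeGroup.of x)))
    (x : groupHomology (Rep.trivial ℚ (IA (FreeGroup X)) ℚ) q) :
    ∃ a : ℕ, ((cR (IA (FreeGroup (X ⊕ Fin (n + 1)))) q T - 1) ^ a) (hn stI q x) = 0 := by
  obtain ⟨h1, h2, h3⟩ := heis_rel (Tv_rm (0 : Fin (n + 1)) w) (Tv_lm fun x => f (FreeGroup.of x))
    hT (by rw [ex_same]; rfl) (by rw [ex_inn]; rfl) (by rw [fext_inr]; rfl)
    (by rw [fext_inn, hfw]; rfl) q
  have hq : q < n + 1 := by
    have : q + 1 ≤ (q + 1) * (2 * q + 1) := Nat.le_mul_of_pos_right _ (by omega)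
    omega
  exact Pool.Agent.TOR.H56.heis_pt _ _ _ (lm_inj q w) h1 h2 h3 (hn stI q x)
    ⟨n + 1, ff_unip w q hq x⟩ (fv_unip hT2 q hn' _ x)

end fv

end Pool.Agent.TOR.H57
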