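import Pool.Agent.Helper57_TOR.Nu6

/-!
# Near unipotence, part 7: interface
-/

set_option autoImplicit false

namespace Pool.Agent.TOR.H57

open CategoryTheory CategoryTheory.Limits Rep Representation Pool.Agent.TST

/-- NUc(q) in the form used by A(q) -/
def NUc (q : ℕ) : Prop := ∃ K : ℕ, ∀ (m : ℕ) (w : FreeGroup (Fin m))
  (f : FreeGroup (Fin m) →* Multiplicative ℤ), f w = 1 →
  ∀ T : MulAut (FreeGroup (Fin m ⊕ Fin K)),
    (∀ i, Abelianization.of (T (FreeGroup.of (Sum.inl i))) =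
      Abelianization.of (FreeGroup.of (Sum.inl i) *
        inn w ^ Multiplicative.toAdd (f (FreeGroup.of i)))) →
    (∀ j, Abelianization.of (T (FreeGroup.of (Sum.inr j))) =
      Abelianization.of (FreeGroup.of (Sum.inr j))) →
  ∀ x : groupHomology (Rep.trivial ℚ (IA (FreeGroup (Fin m))) ℚ) q,
    ∃ a : ℕ, ((cR (IA (FreeGroup (Fin m ⊕ Fin K))) q T - 1) ^ a) (hn stI q x) = 0

theorem nuc_of_T2L (hT2 : T2L) (q : ℕ) : NUc q := by
  refine ⟨(q + 1) * (2 * q + 1) + 1, ?_⟩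
  intro m w f hfw T h1 h2 x
  refine nuc hT2 q le_rfl w f hfw T (Tv_letters ?_) x
  rintro (i | j)
  · rw [h1 i, fext_inl]
  · rw [h2 j, fext_inr, toAdd_one, zpow_zero, mul_one]

end Pool.Agent.TOR.H57
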