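import Pool.Agent.Helper57_TOR.Nu1

/-!
# Realisation in genus 2

For every homomorphism L from the free group on a, b, a', b' to ℤ there is an automorphism φ
fixing [a,b][a',b'] such that L kills φ(a) and φ(b).
-/

set_option autoImplicit false

namespace Pool.Agent.TOR.H57

/-- the free group on four letters -/
abbrev F4 : Type := FreeGroup (Fin 2 × Fin 2)

def la : F4 := FreeGroup.of (0, 0)
def lb : F4 := FreeGroup.of (1, 0)
def lc : F4 := FreeGroup.of (0, 1)
def ld : F4 := FreeGroup.of (1, 1)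

/-- the surface word of genus 2 -/
def z2 : F4 := la * lb * la⁻¹ * lb⁻¹ * (lc * ld * lc⁻¹ * ld⁻¹)

/-- homomorphisms from the free group on four letters -/
def hom4 {G : Type} [Group G] (A B C D : G) : F4 →* G :=
  FreeGroup.lift fun p => if p = (0, 0) then A else if p = (1, 0) then B else
    if p = (0, 1) then C else D

section

variable {G : Type} [Group G] (A B C D : G)

theorem hom4_a : hom4 A B C D la = A := by
  unfold hom4 la; rw [FreeGroup.lift_apply_of]; rfl

theorem hom4_b : hom4 A B C D lb = B := by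
  unfold hom4 lb; rw [FreeGroup.lift_apply_of]; rfl

theorem hom4_c : hom4 A B C D lc = C := by
  unfold hom4 lc; rw [FreeGroup.lift_apply_of]; rfl

theorem hom4_d : hom4 A B C D ld = D := by
  unfold hom4 ld; rw [FreeGroup.lift_apply_of]; rfl

end

theorem four {P : Fin 2 × Fin 2 → Prop} (h1 : P (0, 0)) (h2 : P (1, 0)) (h3 : P (0, 1))
    (h4 : P (1, 1)) (p : Fin 2 × Fin 2) : P p := by
  obtain ⟨i, j⟩ := p
  fin_cases i <;> fin_cases j
  · exact h1
  · exact h3
  · exact h2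
  · exact h4

/-- automorphisms of the free group on four letters -/
def aut4 (A B C D A' B' C' D' : F4)
    (ha : hom4 A B C D A' = la) (hb : hom4 A B C D B' = lb) (hc : hom4 A B C D C' = lc)
    (hd : hom4 A B C D D' = ld)
    (ha' : hom4 A' B' C' D' A = la) (hb' : hom4 A' B' C' D' B = lb)
    (hc' : hom4 A' B' C' D' C = lc) (hd' : hom4 A' B' C' D' D = ld) : MulAut F4 :=
  mkAut (hom4 A B C D) (hom4 A' B' C' D')
    (four (by change hom4 A B C D (hom4 A' B' C' D' la) = la; rw [hom4_a, ha])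
      (by change hom4 A B C D (hom4 A' B' C' D' lb) = lb; rw [hom4_b, hb])
      (by change hom4 A B C D (hom4 A' B' C' D' lc) = lc; rw [hom4_c, hc])
      (by change hom4 A B C D (hom4 A' B' C' D' ld) = ld; rw [hom4_d, hd]))
    (four (by change hom4 A' B' C' D' (hom4 A B C D la) = la; rw [hom4_a, ha'])
      (by change hom4 A' B' C' D' (hom4 A B C D lb) = lb; rw [hom4_b, hb'])
      (by change hom4 A' B' C' D' (hom4 A B C D lc) = lc; rw [hom4_c, hc'])
      (by change hom4 A' B' C' D' (hom4 A B C D ld) = ld; rw [hom4_d, hd']))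

/-- the stabiliser of the surface word -/
def S2 : Subgroup (MulAut F4) where
  carrier := {φ | φ z2 = z2}
  one_mem' := rfl
  mul_mem' := by
    intro a b ha hb
    change a (b z2) = z2
    rw [hb, ha]
  inv_mem' := by
    intro a ha
    change a⁻¹ z2 = z2
    conv_lhs => rw [← ha]
    exact MulAut.inv_apply_self _ a z2

/-- twist along a -/
def twA : MulAut F4 := aut4 la (lb * la) lc ld la (lb * la⁻¹) lc ld
  (by simp [hom4_a]) (by simp [hom4_a, hom4_b]) (by simp [hom4_c]) (by simp [hom4_d])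
  (by simp [hom4_a]) (by simp [hom4_a, hom4_b]) (by simp [hom4_c]) (by simp [hom4_d])

/-- twist along b -/
def twB : MulAut F4 := aut4 (la * lb) lb lc ld (la * lb⁻¹) lb lc ld
  (by simp [hom4_a, hom4_b]) (by simp [hom4_b]) (by simp [hom4_c]) (by simp [hom4_d])
  (by simp [hom4_a, hom4_b]) (by simp [hom4_b]) (by simp [hom4_c]) (by simp [hom4_d])

def twC : MulAut F4 := aut4 la lb lc (ld * lc) la lb lc (ld * lc⁻¹)
  (by simp [hom4_a]) (by simp [hom4_b]) (by simp [hom4_c]) (by simp [hom4_d, hom4_c])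
  (by simp [hom4_a]) (by simp [hom4_b]) (by simp [hom4_c]) (by simp [hom4_d, hom4_c])

def twD : MulAut F4 := aut4 la lb (lc * ld) ld la lb (lc * ld⁻¹) ld
  (by simp [hom4_a]) (by simp [hom4_b]) (by simp [hom4_c, hom4_d]) (by simp [hom4_d])
  (by simp [hom4_a]) (by simp [hom4_b]) (by simp [hom4_c, hom4_d]) (by simp [hom4_d])

/-- the class of the connecting curve -/
def cc : F4 := lb⁻¹ * lc * ld * lc⁻¹

/-- twist along the connecting curve b⁻¹ a' b' a'⁻¹ -/
def twE : MulAut F4 := aut4 (la * cc⁻¹) (cc * lb * cc⁻¹) (cc * lc) ld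
  (la * cc) (cc⁻¹ * lb * cc) (cc⁻¹ * lc) ld
  (by simp only [cc, map_mul, map_inv, hom4_a, hom4_b, hom4_c, hom4_d]; group)
  (by simp only [cc, map_mul, map_inv, hom4_a, hom4_b, hom4_c, hom4_d]; group)
  (by simp only [cc, map_mul, map_inv, hom4_a, hom4_b, hom4_c, hom4_d]; group)
  (by simp only [hom4_d])
  (by simp only [cc, map_mul, map_inv, hom4_a, hom4_b, hom4_c, hom4_d]; group)
  (by simp only [cc, map_mul, map_inv, hom4_a, hom4_b, hom4_c, hom4_d]; group)
  (by simp only [cc, map_mul, map_inv, hom4_a, hom4_b, hom4_c, hom4_d]; group)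
  (by simp only [hom4_d])

theorem twA_apply (x : F4) : twA x = hom4 la (lb * la) lc ld x := rfl
theorem twB_apply (x : F4) : twB x = hom4 (la * lb) lb lc ld x := rfl
theorem twC_apply (x : F4) : twC x = hom4 la lb lc (ld * lc) x := rfl
theorem twD_apply (x : F4) : twD x = hom4 la lb (lc * ld) ld x := rfl
theorem twE_apply (x : F4) : twE x = hom4 (la * cc⁻¹) (cc * lb * cc⁻¹) (cc * lc) ld x := rfl

theorem mem_S2 (φ : MulAut F4) : φ ∈ S2 ↔ φ z2 = z2 := Iff.rfl

theorem twA_mem : twA ∈ S2 := by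
  rw [mem_S2, twA_apply]
  simp only [z2, map_mul, map_inv, hom4_a, hom4_b, hom4_c, hom4_d]; group

theorem twB_mem : twB ∈ S2 := by
  rw [mem_S2, twB_apply]
  simp only [z2, map_mul, map_inv, hom4_a, hom4_b, hom4_c, hom4_d]; group

theorem twC_mem : twC ∈ S2 := by
  rw [mem_S2, twC_apply]
  simp only [z2, map_mul, map_inv, hom4_a, hom4_b, hom4_c, hom4_d]; group

theorem twD_mem : twD ∈ S2 := by
  rw [mem_S2, twD_apply]
  simp only [z2, map_mul, map_inv, hom4_a, hom4_b, hom4_c, hom4_d]; group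

theorem twE_mem : twE ∈ S2 := by
  rw [mem_S2, twE_apply]
  simp only [z2, cc, map_mul, map_inv, hom4_a, hom4_b, hom4_c, hom4_d]; group

/-- L has the values p, q, r, s on the four letters -/
def Val (L : F4 →* Multiplicative ℤ) (p q r s : ℤ) : Prop :=
  Multiplicative.toAdd (L la) = p ∧ Multiplicative.toAdd (L lb) = q ∧
    Multiplicative.toAdd (L lc) = r ∧ Multiplicative.toAdd (L ld) = s

/-- the conclusion for the functional with values p, q, r, s -/
def Gd (p q r s : ℤ) : Prop := ∀ L : F4 →* Multiplicative ℤ, Val L p q r s →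
  ∃ φ ∈ S2, L (φ la) = 1 ∧ L (φ lb) = 1

theorem Gd.move {p q r s p' q' r' s' : ℤ} (ψ : MulAut F4) (hψ : ψ ∈ S2)
    (h : ∀ L : F4 →* Multiplicative ℤ, Val L p q r s →
      Val (L.comp (ψ : F4 ≃* F4).toMonoidHom) p' q' r' s') (hg : Gd p' q' r' s') :
    Gd p q r s := by
  intro L hL
  obtain ⟨φ, hφ, h1, h2⟩ := hg _ (h L hL)
  exact ⟨ψ * φ, S2.mul_mem hψ hφ, h1, h2⟩

theorem Gd.zero (r s : ℤ) : Gd 0 0 r s := by
  intro L hL
  exact ⟨1, S2.one_mem, Multiplicative.toAdd.injective hL.1, Multiplicative.toAdd.injective hL.2.1⟩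

theorem coe_hom (ψ : MulAut F4) (x : F4) : (ψ : F4 ≃* F4).toMonoidHom x = ψ x := rfl

theorem Gd.mA {p q r s : ℤ} (h : Gd p (q + p) r s) : Gd p q r s := by
  refine h.move twA twA_mem ?_
  rintro L ⟨h1, h2, h3, h4⟩
  simp only [Val, MonoidHom.comp_apply, coe_hom, twA_apply, hom4_a, hom4_b, hom4_c, hom4_d,
    map_mul, toAdd_mul, h1, h2, h3, h4, and_self]

theorem Gd.mB {p q r s : ℤ} (h : Gd (p + q) q r s) : Gd p q r s := by
  refine h.move twB twB_mem ?_
  rintro L ⟨h1, h2, h3, h4⟩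
  simp only [Val, MonoidHom.comp_apply, coe_hom, twB_apply, hom4_a, hom4_b, hom4_c, hom4_d,
    map_mul, toAdd_mul, h1, h2, h3, h4, and_self]

theorem Gd.mC {p q r s : ℤ} (h : Gd p q r (s + r)) : Gd p q r s := by
  refine h.move twC twC_mem ?_
  rintro L ⟨h1, h2, h3, h4⟩
  simp only [Val, MonoidHom.comp_apply, coe_hom, twC_apply, hom4_a, hom4_b, hom4_c, hom4_d,
    map_mul, toAdd_mul, h1, h2, h3, h4, and_self]

theorem Gd.mD {p q r s : ℤ} (h : Gd p q (r + s) s) : Gd p q r s := by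
  refine h.move twD twD_mem ?_
  rintro L ⟨h1, h2, h3, h4⟩
  simp only [Val, MonoidHom.comp_apply, coe_hom, twD_apply, hom4_a, hom4_b, hom4_c, hom4_d,
    map_mul, toAdd_mul, h1, h2, h3, h4, and_self]

theorem Gd.mE {p q r s : ℤ} (h : Gd (p - (s - q)) q (r + (s - q)) s) : Gd p q r s := by
  refine h.move twE twE_mem ?_
  rintro L ⟨h1, h2, h3, h4⟩
  simp only [Val, MonoidHom.comp_apply, coe_hom, twE_apply, hom4_a, hom4_b, hom4_c, hom4_d, cc,
    map_mul, map_inv, toAdd_mul, toAdd_inv, h1, h2, h3, h4]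
  refine ⟨by ring, by ring, by ring, trivial⟩

/-- moves are reversible -/
theorem Gd.move' {p q r s p' q' r' s' : ℤ} (ψ : MulAut F4) (hψ : ψ ∈ S2)
    (h : ∀ L : F4 →* Multiplicative ℤ, Val (L.comp (ψ : F4 ≃* F4).toMonoidHom) p q r s →
      Val L p' q' r' s') (hg : Gd p' q' r' s') : Gd p q r s := by
  refine hg.move ψ⁻¹ (S2.inv_mem hψ) ?_
  intro L hL
  refine h _ ?_
  have h1 : (L.comp ((ψ⁻¹ : MulAut F4) : F4 ≃* F4).toMonoidHom).comp
      (ψ : F4 ≃* F4).toMonoidHom = L := by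
    refine MonoidHom.ext fun x => ?_
    change L (ψ⁻¹ (ψ x)) = L x
    rw [MulAut.inv_apply_self]
  rw [h1]
  exact hL

theorem Gd.mA' {p q r s : ℤ} (h : Gd p (q - p) r s) : Gd p q r s := by
  refine h.move' twA twA_mem ?_
  rintro L ⟨h1, h2, h3, h4⟩
  simp only [MonoidHom.comp_apply, coe_hom, twA_apply, hom4_a, hom4_b, hom4_c, hom4_d,
    map_mul, toAdd_mul] at h1 h2 h3 h4
  exact ⟨by omega, by omega, by omega, by omega⟩

theorem Gd.mB' {p q r s : ℤ} (h : Gd (p - q) q r s) : Gd p q r s := by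
  refine h.move' twB twB_mem ?_
  rintro L ⟨h1, h2, h3, h4⟩
  simp only [MonoidHom.comp_apply, coe_hom, twB_apply, hom4_a, hom4_b, hom4_c, hom4_d,
    map_mul, toAdd_mul] at h1 h2 h3 h4
  exact ⟨by omega, by omega, by omega, by omega⟩

theorem Gd.mC' {p q r s : ℤ} (h : Gd p q r (s - r)) : Gd p q r s := by
  refine h.move' twC twC_mem ?_
  rintro L ⟨h1, h2, h3, h4⟩
  simp only [MonoidHom.comp_apply, coe_hom, twC_apply, hom4_a, hom4_b, hom4_c, hom4_d,
    map_mul, toAdd_mul] at h1 h2 h3 h4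
  exact ⟨by omega, by omega, by omega, by omega⟩

theorem Gd.mD' {p q r s : ℤ} (h : Gd p q (r - s) s) : Gd p q r s := by
  refine h.move' twD twD_mem ?_
  rintro L ⟨h1, h2, h3, h4⟩
  simp only [MonoidHom.comp_apply, coe_hom, twD_apply, hom4_a, hom4_b, hom4_c, hom4_d,
    map_mul, toAdd_mul] at h1 h2 h3 h4
  exact ⟨by omega, by omega, by omega, by omega⟩

theorem Gd.mE' {p q r s : ℤ} (h : Gd (p + (s - q)) q (r - (s - q)) s) : Gd p q r s := by
  refine h.move' twE twE_mem ?_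
  rintro L ⟨h1, h2, h3, h4⟩
  simp only [MonoidHom.comp_apply, coe_hom, twE_apply, hom4_a, hom4_b, hom4_c, hom4_d, cc,
    map_mul, map_inv, toAdd_mul, toAdd_inv] at h1 h2 h3 h4
  exact ⟨by omega, by omega, by omega, by omega⟩

/-- (x, 0) → (0, x) in the first block -/
theorem Gd.swap1 {p r s : ℤ} (h : Gd 0 p r s) : Gd p 0 r s := by
  refine Gd.mA ?_
  refine Gd.mB' ?_
  simpa using h

theorem Gd.swap1' {p r s : ℤ} (h : Gd p 0 r s) : Gd 0 p r s := by
  refine Gd.mB ?_
  refine Gd.mA' ?_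
  simpa using h

theorem Gd.swap2 {p q r : ℤ} (h : Gd p q 0 r) : Gd p q r 0 := by
  refine Gd.mC ?_
  refine Gd.mD' ?_
  simpa using h

theorem Gd.swap2' {p q r : ℤ} (h : Gd p q r 0) : Gd p q 0 r := by
  refine Gd.mD ?_
  refine Gd.mC' ?_
  simpa using h

/-- (g₁, 0 | 0, g₂) → (g₁ - g₂, 0 | 0, g₂) -/
theorem Gd.red1 {p s : ℤ} (h : Gd (p - s) 0 0 s) : Gd p 0 0 s := by
  refine Gd.mE ?_
  refine Gd.mD' ?_
  simpa using h

theorem Gd.red1' {p s : ℤ} (h : Gd (p + s) 0 0 s) : Gd p 0 0 s := by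
  refine Gd.mE' ?_
  refine Gd.mD ?_
  simpa using h

/-- (g₁, 0 | 0, g₂) → (g₁, 0 | 0, g₂ - g₁) -/
theorem Gd.red2 {p s : ℤ} (h : Gd p 0 0 (s - p)) : Gd p 0 0 s := by
  refine Gd.swap1 ?_
  refine Gd.swap2' ?_
  refine Gd.mE ?_
  refine Gd.mB' ?_
  have h1 : Gd 0 p (s - p) 0 := (h.swap2).swap1'
  simpa [sub_eq_add_neg] using h1

theorem Gd.red2' {p s : ℤ} (h : Gd p 0 0 (s + p)) : Gd p 0 0 s := by
  refine Gd.swap1 ?_
  refine Gd.swap2' ?_
  refine Gd.mE' ?_
  refine Gd.mB ?_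
  have h1 : Gd 0 p (s + p) 0 := (h.swap2).swap1'
  simpa [sub_eq_add_neg] using h1

theorem Gd.diag (n : ℕ) : ∀ p s : ℤ, p.natAbs + s.natAbs ≤ n → Gd p 0 0 s := by
  induction n with
  | zero =>
    intro p s h
    have hp : p = 0 := by omega
    subst hp
    exact Gd.zero _ _
  | succ n ih =>
    intro p s h
    by_cases hp : p = 0
    · subst hp; exact Gd.zero _ _
    by_cases hs : s = 0
    · subst hs
      refine Gd.red2' ?_
      refine Gd.red1 ?_
      have h1 : p - (0 + p) = 0 := by ring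
      rw [h1]
      exact Gd.zero _ _
    rcases lt_trichotomy p.natAbs s.natAbs with hlt | heq | hgt
    · by_cases hsg : 0 < p * s
      · refine Gd.red2 (ih _ _ ?_)
        rcases pos_and_pos_or_neg_and_neg_of_mul_pos hsg with ⟨h1, h2⟩ | ⟨h1, h2⟩ <;> omega
      · refine Gd.red2' (ih _ _ ?_)
        have : p * s < 0 := lt_of_le_of_ne (not_lt.1 hsg) (mul_ne_zero hp hs)
        rcases mul_neg_iff.1 this with ⟨h1, h2⟩ | ⟨h1, h2⟩ <;> omega
    · by_cases hsg : 0 < p * s
      · refine Gd.red1 ?_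
        have h1 : p - s = 0 := by
          rcases pos_and_pos_or_neg_and_neg_of_mul_pos hsg with ⟨h1, h2⟩ | ⟨h1, h2⟩ <;> omega
        rw [h1]
        exact Gd.zero _ _
      · refine Gd.red1' ?_
        have : p * s < 0 := lt_of_le_of_ne (not_lt.1 hsg) (mul_ne_zero hp hs)
        have h1 : p + s = 0 := by
          rcases mul_neg_iff.1 this with ⟨h1, h2⟩ | ⟨h1, h2⟩ <;> omega
        rw [h1]
        exact Gd.zero _ _
    · by_cases hsg : 0 < p * s
      · refine Gd.red1 (ih _ _ ?_)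
        rcases pos_and_pos_or_neg_and_neg_of_mul_pos hsg with ⟨h1, h2⟩ | ⟨h1, h2⟩ <;> omega
      · refine Gd.red1' (ih _ _ ?_)
        have : p * s < 0 := lt_of_le_of_ne (not_lt.1 hsg) (mul_ne_zero hp hs)
        rcases mul_neg_iff.1 this with ⟨h1, h2⟩ | ⟨h1, h2⟩ <;> omega

/-- reduction of the first block -/
theorem Gd.block1 (n : ℕ) : ∀ p q r s : ℤ, p.natAbs + q.natAbs ≤ n →
    (∀ g, Gd g 0 r s) → Gd p q r s := by
  induction n with
  | zero =>
    intro p q r s h hg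
    have hq : q = 0 := by omega
    subst hq
    exact hg p
  | succ n ih =>
    intro p q r s h hg
    by_cases hq : q = 0
    · subst hq; exact hg p
    by_cases hp : p = 0
    · subst hp; exact (hg q).swap1'
    by_cases hsg : 0 < p * q
    · rcases le_or_gt p.natAbs q.natAbs with hle | hlt
      · refine Gd.mA' (ih _ _ _ _ ?_ hg)
        rcases pos_and_pos_or_neg_and_neg_of_mul_pos hsg with ⟨h1, h2⟩ | ⟨h1, h2⟩ <;> omega
      · refine Gd.mB' (ih _ _ _ _ ?_ hg)
        rcases pos_and_pos_or_neg_and_neg_of_mul_pos hsg with ⟨h1, h2⟩ | ⟨h1, h2⟩ <;> omega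
    · have hlt0 : p * q < 0 := lt_of_le_of_ne (not_lt.1 hsg) (mul_ne_zero hp hq)
      rcases le_or_gt p.natAbs q.natAbs with hle | hlt
      · refine Gd.mA (ih _ _ _ _ ?_ hg)
        rcases mul_neg_iff.1 hlt0 with ⟨h1, h2⟩ | ⟨h1, h2⟩ <;> omega
      · refine Gd.mB (ih _ _ _ _ ?_ hg)
        rcases mul_neg_iff.1 hlt0 with ⟨h1, h2⟩ | ⟨h1, h2⟩ <;> omega

/-- reduction of the second block -/
theorem Gd.block2 (n : ℕ) : ∀ p q r s : ℤ, r.natAbs + s.natAbs ≤ n →
    (∀ g, Gd p q 0 g) → Gd p q r s := by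
  induction n with
  | zero =>
    intro p q r s h hg
    have hr : r = 0 := by omega
    subst hr
    exact hg s
  | succ n ih =>
    intro p q r s h hg
    by_cases hr : r = 0
    · subst hr; exact hg s
    by_cases hs : s = 0
    · subst hs; exact (hg r).swap2
    by_cases hsg : 0 < r * s
    · rcases le_or_gt r.natAbs s.natAbs with hle | hlt
      · refine Gd.mC' (ih _ _ _ _ ?_ hg)
        rcases pos_and_pos_or_neg_and_neg_of_mul_pos hsg with ⟨h1, h2⟩ | ⟨h1, h2⟩ <;> omega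
      · refine Gd.mD' (ih _ _ _ _ ?_ hg)
        rcases pos_and_pos_or_neg_and_neg_of_mul_pos hsg with ⟨h1, h2⟩ | ⟨h1, h2⟩ <;> omega
    · have hlt0 : r * s < 0 := lt_of_le_of_ne (not_lt.1 hsg) (mul_ne_zero hr hs)
      rcases le_or_gt r.natAbs s.natAbs with hle | hlt
      · refine Gd.mC (ih _ _ _ _ ?_ hg)
        rcases mul_neg_iff.1 hlt0 with ⟨h1, h2⟩ | ⟨h1, h2⟩ <;> omega
      · refine Gd.mD (ih _ _ _ _ ?_ hg)
        rcases mul_neg_iff.1 hlt0 with ⟨h1, h2⟩ | ⟨h1, h2⟩ <;> omega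

/-- REALISATION in genus 2: every functional vanishes on the first handle of some element of the
stabiliser of the surface word -/
theorem real2 (L : F4 →* Multiplicative ℤ) :
    ∃ φ : MulAut F4, φ z2 = z2 ∧ L (φ la) = 1 ∧ L (φ lb) = 1 := by
  have h : ∀ p q r s, Gd p q r s := fun p q r s =>
    Gd.block1 _ p q r s le_rfl fun g => Gd.block2 _ g 0 r s le_rfl fun g' => Gd.diag _ g g' le_rfl
  obtain ⟨φ, h1, h2⟩ := h _ _ _ _ L ⟨rfl, rfl, rfl, rfl⟩
  exact ⟨φ, h1, h2⟩

/-- the same in any group G with four elements a, b, c, d, and any functional on G -/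
theorem real2' {G : Type} [Group G] (a b c d : G) (L : G →* Multiplicative ℤ) :
    ∃ φ : MulAut F4, φ z2 = z2 ∧ L (hom4 a b c d (φ la)) = 1 ∧ L (hom4 a b c d (φ lb)) = 1 :=
  real2 (L.comp (hom4 a b c d))

end Pool.Agent.TOR.H57
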