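import Pool.Agent.Helper57_TOR.Cr2

/-!
# Explicit Shapiro lemma: surjectivity
-/

set_option autoImplicit false

namespace Pool.Agent.TOR.H57

open CategoryTheory CategoryTheory.Limits Rep Representation

universe u

variable {k G : Type u} [CommRing k] [Group G] (X : Type u) [MulAction G X] (x₀ : X)

/-- p ↦ [x₀] ⊗ p -/
noncomputable def ipt (P : Rep.{u} k G) : res (MulAction.stabilizer G x₀).subtype P ⟶
    res (MulAction.stabilizer G x₀).subtype (perm X P) :=
  ofHom ⟨Finsupp.lsingle x₀, fun s => by
    ext a : 1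
    change Finsupp.single x₀ (P.ρ s a) = permR X P s (Finsupp.single x₀ a)
    rw [permR_single, MulAction.mem_stabilizer_iff.1 s.2]⟩

theorem ipt_apply (P : Rep.{u} k G) (p : P) : (ipt X x₀ P).hom p = Finsupp.single x₀ p := rfl

/-- the Shapiro map -/
noncomputable def shm (P : Rep.{u} k G) (n : ℕ) :
    groupHomology (res (MulAction.stabilizer G x₀).subtype P) n ⟶ groupHomology (perm X P) n :=
  groupHomology.map (MulAction.stabilizer G x₀).subtype (ipt X x₀ P) n

variable (htr : ∀ x : X, ∃ g : G, g • x₀ = x)

include htr in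
theorem shm_surj_zero (P : Rep.{u} k G) : Function.Surjective (shm X x₀ P 0).hom := by
  intro y
  have hπ : Function.Surjective (groupHomology.H0π (perm X P)) :=
    (ModuleCat.epi_iff_surjective _).1 inferInstance
  obtain ⟨c, rfl⟩ := hπ y
  have key : ∀ c : X →₀ P, ∃ p : P, (shm X x₀ P 0).hom
      ((groupHomology.H0π (res (MulAction.stabilizer G x₀).subtype P)).hom p) =
      (groupHomology.H0π (perm X P)).hom c := by
    intro c
    induction c using Finsupp.induction_linear with
    | zero =>
      refine ⟨0, ?_⟩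
      rw [map_zero, map_zero]
      exact (map_zero _).symm
    | add a b ha hb =>
      obtain ⟨p, hp⟩ := ha
      obtain ⟨q, hq⟩ := hb
      refine ⟨p + q, ?_⟩
      rw [map_add, map_add, hp, hq]
      exact (map_add _ _ _).symm
    | single x p =>
      obtain ⟨g, hg⟩ := htr x
      refine ⟨P.ρ g⁻¹ p, ?_⟩
      have h1 := groupHomology.H0π_comp_map (MulAction.stabilizer G x₀).subtype
        (A := res (MulAction.stabilizer G x₀).subtype P) (B := perm X P) (ipt X x₀ P)
      have h2 := congrArg (fun φ => φ.hom (P.ρ g⁻¹ p)) h1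
      refine h2.trans ?_
      have h3 : (coinvariantsMk k G).app (perm X P) ≫ (groupHomology.H0Iso (perm X P)).inv =
        groupHomology.H0π (perm X P) := by
        rw [Iso.comp_inv_eq]
        exact (groupHomology.H0π_comp_H0Iso_hom (perm X P)).symm
      rw [← h3]
      have h4 : (Coinvariants.mk (perm X P).ρ) (Finsupp.single x₀ (P.ρ g⁻¹ p)) =
          (Coinvariants.mk (perm X P).ρ) (Finsupp.single x p) := by
        have h5 : (perm X P).ρ g⁻¹ (Finsupp.single x p) = Finsupp.single x₀ (P.ρ g⁻¹ p) := by
          change permR X P g⁻¹ (Finsupp.single x p) = _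
          rw [permR_single, ← hg, inv_smul_smul]
        rw [← h5]
        exact (Coinvariants.mk_eq_iff _).2 (Coinvariants.sub_mem_ker _ _)
      exact congrArg (groupHomology.H0Iso (perm X P)).inv.hom h4
  obtain ⟨p, hp⟩ := key c
  exact ⟨_, hp⟩

include htr in
theorem shm_inj_zero (P : Rep.{u} k G) : Function.Injective (shm X x₀ P 0).hom := by
  choose τ hτ using htr
  set S := MulAction.stabilizer G x₀ with hS
  -- the inverse on coinvariants
  let L : (X →₀ P) →ₗ[k] Coinvariants (res S.subtype P).ρ :=
    Finsupp.lsum k (fun x => (Coinvariants.mk (res S.subtype P).ρ) ∘ₗ P.ρ (τ x)⁻¹)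
  have hL1 : ∀ x (a : P), L (Finsupp.single x a) =
      Coinvariants.mk (res S.subtype P).ρ (P.ρ (τ x)⁻¹ a) := by
    intro x a
    change Finsupp.lsum k _ (Finsupp.single x a) = _
    rw [Finsupp.lsum_single]
    rfl
  have hL2 : ∀ (g h : G) (a : P), g⁻¹ • x₀ = h⁻¹ • x₀ →
      Coinvariants.mk (res S.subtype P).ρ (P.ρ g a) =
      Coinvariants.mk (res S.subtype P).ρ (P.ρ h a) := by
    intro g h a hgh
    have hs : g * h⁻¹ ∈ S := by
      rw [hS, MulAction.mem_stabilizer_iff, mul_smul, ← hgh, smul_inv_smul]
    have h1 : P.ρ g a = (res S.subtype P).ρ ⟨g * h⁻¹, hs⟩ (P.ρ h a) := by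
      change P.ρ g a = P.ρ (g * h⁻¹) (P.ρ h a)
      rw [← Module.End.mul_apply, ← map_mul, inv_mul_cancel_right]
    rw [h1]
    exact (Coinvariants.mk_eq_iff _).2 (Coinvariants.sub_mem_ker _ _)
  have hL : ∀ g : G, L ∘ₗ permR X P g = L := by
    intro g
    refine Finsupp.lhom_ext fun x a => ?_
    rw [LinearMap.comp_apply, permR_single, hL1, hL1, ← Module.End.mul_apply, ← map_mul]
    refine hL2 _ _ a ?_
    rw [mul_inv_rev, inv_inv, inv_inv, mul_smul, hτ, hτ, inv_smul_smul]
  let L' : Coinvariants (perm X P).ρ →ₗ[k] Coinvariants (res S.subtype P).ρ :=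
    Coinvariants.lift (perm X P).ρ L (fun g => hL g)
  intro y z hyz
  have hπ : Function.Surjective (groupHomology.H0π (res S.subtype P)) :=
    (ModuleCat.epi_iff_surjective _).1 inferInstance
  obtain ⟨p, rfl⟩ := hπ y
  obtain ⟨q, rfl⟩ := hπ z
  have h1 := groupHomology.H0π_comp_map S.subtype
    (A := res S.subtype P) (B := perm X P) (ipt X x₀ P)
  have h2 : ∀ p : P, (groupHomology.H0Iso (perm X P)).hom.hom ((shm X x₀ P 0).hom
      ((groupHomology.H0π (res S.subtype P)).hom p)) =
      Coinvariants.mk (perm X P).ρ (Finsupp.single x₀ p) := by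
    intro p
    have h3 := congrArg (fun φ => (groupHomology.H0Iso (perm X P)).hom.hom (φ.hom p)) h1
    refine h3.trans ?_
    have h4 := groupHomology.H0π_comp_H0Iso_hom (perm X P)
    exact congrArg (fun φ => φ.hom (Finsupp.single x₀ p)) h4
  have h5 : Coinvariants.mk (perm X P).ρ (Finsupp.single x₀ p) =
      Coinvariants.mk (perm X P).ρ (Finsupp.single x₀ q) := by
    rw [← h2, ← h2]
    exact congrArg _ hyz
  have h6 := congrArg L' h5
  have h7 : ∀ p : P, L' (Coinvariants.mk (perm X P).ρ (Finsupp.single x₀ p)) =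
      Coinvariants.mk (res S.subtype P).ρ p := by
    intro p
    change L (Finsupp.single x₀ p) = _
    rw [hL1]
    have h8 := hL2 (τ x₀)⁻¹ 1 p (by rw [inv_inv, hτ, inv_one, one_smul])
    rw [h8, map_one]
    rfl
  rw [h7, h7] at h6
  have h9 : (groupHomology.H0π (res S.subtype P)) = (coinvariantsMk k S).app (res S.subtype P) ≫
      (groupHomology.H0Iso (res S.subtype P)).inv := by
    rw [Iso.eq_comp_inv]
    exact (groupHomology.H0π_comp_H0Iso_hom (res S.subtype P))
  rw [h9]
  exact congrArg (groupHomology.H0Iso (res S.subtype P)).inv.hom h6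

theorem van_free (Y : Type u) [MulAction G Y] (hY : ∀ (g : G) (y : Y), g • y = y → g = 1)
    (A : Rep.{u} k G) (n : ℕ) : Van (perm Y A) (n + 1) := by
  classical
  refine van_perm Y A (n + 1) fun y => ⟨1, ?_⟩
  have h : Subsingleton (MulAction.stabilizer G ((1 : G) • y)) := by
    refine ⟨fun a b => Subtype.ext ?_⟩
    rw [hY a _ a.2, hY b _ b.2]
  exact isZero_groupHomology_succ_of_subsingleton _ n

theorem van_reg (S : Subgroup G) (P : Rep.{u} k G) (n : ℕ) :
    Van (res S.subtype (perm G P)) (n + 1) := by
  let e : res S.subtype (perm G P) ≅ perm (k := k) (G := S) G (res S.subtype P) :=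
    { hom := ofHom ⟨LinearMap.id, fun s => rfl⟩
      inv := ofHom ⟨LinearMap.id, fun s => rfl⟩
      hom_inv_id := rfl
      inv_hom_id := rfl }
  refine van_iso e (n + 1) ?_
  refine van_free G (fun s g h => ?_) _ n
  have h1 : (s : G) * g = g := h
  exact Subtype.ext (mul_eq_right.1 h1)

theorem van_perm_reg (P : Rep.{u} k G) (n : ℕ) : Van (perm X (perm G P)) (n + 1) :=
  van_perm X _ (n + 1) fun _ => ⟨1, van_reg _ P n⟩

theorem shm_nat {P Q : Rep.{u} k G} (f : P ⟶ Q) :
    groupHomology.chainsMap (MulAction.stabilizer G x₀).subtype (ipt X x₀ P) ≫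
      groupHomology.chainsMap (MonoidHom.id G) (permC X f) =
    groupHomology.chainsMap (MonoidHom.id (MulAction.stabilizer G x₀))
      ((resFunctor.{u} (MulAction.stabilizer G x₀).subtype).map f) ≫
      groupHomology.chainsMap (MulAction.stabilizer G x₀).subtype (ipt X x₀ Q) := by
  rw [← groupHomology.chainsMap_comp, ← groupHomology.chainsMap_comp]
  refine groupHomology.chainsMap_congr rfl ?_
  refine LinearMap.ext fun a => ?_
  change (permC X f).hom ((ipt X x₀ P).hom a) = (ipt X x₀ Q).hom (f.hom a)
  rw [ipt_apply, ipt_apply, permC_single]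

include htr in
/-- the Shapiro map is surjective -/
theorem shm_surj (n : ℕ) : ∀ P : Rep.{u} k G, Function.Surjective (shm X x₀ P n).hom := by
  induction n with
  | zero => exact shm_surj_zero X x₀ htr
  | succ n ih =>
    intro P
    let S := MulAction.stabilizer G x₀
    let E := sesX G P
    have hE : E.ShortExact := sesX_exact G P
    have hES : (E.map (resFunctor.{u} S.subtype)).ShortExact := (Rep.shortExact_res _).2 hE
    have hEX : (permS X E).ShortExact := permS_exact X hE
    let φ : (E.map (resFunctor.{u} S.subtype)).map (groupHomology.chainsFunctor k S) ⟶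
        (permS X E).map (groupHomology.chainsFunctor k G) :=
      { τ₁ := groupHomology.chainsMap S.subtype (ipt X x₀ E.X₁)
        τ₂ := groupHomology.chainsMap S.subtype (ipt X x₀ E.X₂)
        τ₃ := groupHomology.chainsMap S.subtype (ipt X x₀ E.X₃)
        comm₁₂ := shm_nat X x₀ E.f
        comm₂₃ := shm_nat X x₀ E.g }
    have hn := HomologicalComplex.HomologySequence.δ_naturality φ
      (groupHomology.map_chainsFunctor_shortExact hES)
      (groupHomology.map_chainsFunctor_shortExact hEX) (n+1) n (by simp)
    let D : groupHomology (perm X P) (n + 1) →ₗ[k] groupHomology (perm X E.X₁) n :=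
      (groupHomology.δ hEX (n + 1) n rfl).hom
    let DS : groupHomology (res S.subtype P) (n + 1) →ₗ[k]
        groupHomology (res S.subtype E.X₁) n := (groupHomology.δ hES (n + 1) n rfl).hom
    have hD : ∀ w, D ((shm X x₀ P (n + 1)).hom w) = (shm X x₀ E.X₁ n).hom (DS w) := by
      intro w
      exact (congrArg (fun φ : groupHomology (res S.subtype P) (n + 1) ⟶
        groupHomology (perm X E.X₁) n => φ.hom w) hn).symm
    intro y
    obtain ⟨z, hz⟩ := ih E.X₁ (D y)
    -- z dies in the middle term
    let fS : groupHomology (res S.subtype E.X₁) n ⟶ groupHomology (res S.subtype E.X₂) n :=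
      groupHomology.map (MonoidHom.id S) ((resFunctor.{u} S.subtype).map E.f) n
    have hnat : ∀ w, (shm X x₀ E.X₂ n).hom (fS.hom w) =
        (groupHomology.map (A := perm X E.X₁) (B := perm X E.X₂) (MonoidHom.id G)
            (permC X E.f) n).hom
          ((shm X x₀ E.X₁ n).hom w) := by
      intro w
      have h1 := groupHomology.map_comp (A := res S.subtype E.X₁) (B := res S.subtype E.X₂)
        (C := perm X E.X₂) (MonoidHom.id S) S.subtype ((resFunctor.{u} S.subtype).map E.f)
        (ipt X x₀ E.X₂) n
      have h2 := groupHomology.map_comp (A := res S.subtype E.X₁) (B := perm X E.X₁)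
        (C := perm X E.X₂) S.subtype (MonoidHom.id G) (ipt X x₀ E.X₁) (permC X E.f) n
      have h3 : groupHomology.map (A := res S.subtype E.X₁) (B := perm X E.X₂)
          (S.subtype.comp (MonoidHom.id S)) ((resFunctor.{u} S.subtype).map E.f ≫
            (resFunctor.{u} (MonoidHom.id S)).map (ipt X x₀ E.X₂)) n =
          groupHomology.map (A := res S.subtype E.X₁) (B := perm X E.X₂)
          ((MonoidHom.id G).comp S.subtype) (ipt X x₀ E.X₁ ≫
            (resFunctor.{u} S.subtype).map (permC X E.f)) n := by
        refine groupHomology.map_congr rfl ?_ n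
        refine LinearMap.ext fun a => ?_
        change (ipt X x₀ E.X₂).hom (E.f.hom a) = (permC X E.f).hom ((ipt X x₀ E.X₁).hom a)
        rw [ipt_apply, ipt_apply, permC_single]
      exact congrArg (fun φ : groupHomology (res S.subtype E.X₁) n ⟶
        groupHomology (perm X E.X₂) n => φ.hom w) (h1.symm.trans (h3.trans h2))
    have hfD : (groupHomology.map (A := perm X E.X₁) (B := perm X E.X₂) (MonoidHom.id G)
            (permC X E.f) n).hom (D y) = 0 := by
      have h1 := (groupHomology.mapShortComplex₁ hEX (i := n + 1) (j := n) rfl).zero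
      exact congrArg (fun φ : groupHomology (perm X P) (n + 1) ⟶
        groupHomology (perm X E.X₂) n => φ.hom y) h1
    have hfz : fS.hom z = 0 := by
      rcases n with _ | n
      · apply shm_inj_zero X x₀ htr E.X₂
        rw [hnat, hz, hfD, map_zero]
      · have hv : Van (res S.subtype E.X₂) (n + 1) := van_reg S P n
        have h1 : fS = 0 := hv.eq_of_tgt _ _
        rw [h1]
        rfl
    obtain ⟨z', hz'⟩ : ∃ z', DS z' = z := by
      have h1 := groupHomology.mapShortComplex₁_exact hES (i := n + 1) (j := n) rfl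
      rw [ShortComplex.moduleCat_exact_iff] at h1
      exact h1 z hfz
    refine ⟨z', ?_⟩
    have hinj : Function.Injective D := by
      have hm : Mono (groupHomology.δ hEX (n + 1) n rfl) :=
        groupHomology.mono_δ_of_isZero hEX n (van_perm_reg X P n)
      exact (ModuleCat.mono_iff_injective _).1 hm
    apply hinj
    rw [hD, hz', hz]

end Pool.Agent.TOR.H57
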